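import Pool.Agent.Lib.NLA.Spec
import Pool.Agent.Lib.SLN.DefI2

/-!
MP_00e23e_nt, project NLM (no lock, arbitrary part m ≤ x^μ, μ < 1/5), chapter A' (helper90): as Lib/NLA, but the small variable of
the sums with two smooth variables is ≤ u = ⌊x^ν⌋, so that ν may be close to 1/5. The products of the small coefficients am = μ on
[1,u] are cut at u: the parts above u are supported in (u, u²] ⊆ (u, w] and belong to the bilinear part.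

RULES. Module X: file Pool/Agent/Lib/NMA/X.lean, first line `import Pool.Agent.Lib.NMA.Spec`, then `namespace Pool.Agent.Lib.NMA`
and the three `open` lines below; private lemmas with names starting with X_, final theorem `theorem tX (h1 : AStmt) ... : XStmt`; the
statements listed under Uses are hypotheses of your theorem, in this order. The docstring contains a complete proof. MODEL file:
copy it and change it. Never use congr!. Every module below 60 s. The constants are generous.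
-/

namespace Pool.Agent.Lib.NMA

open Finset Pool.Agent.Lib.EH3 Pool.Agent.Lib.TB Pool.Agent.Results.MP_00e23e_nt Pool.Agent.Lib.MI
open Pool.Agent.Lib.MX (Bd Mz Bd_nonneg Bd_mono rp_le rn_le log_le_T Tau_x)
open Pool.Agent.Lib.NLA (am zt lt zB lB eE gG gE CS BlN)

/-- the parameters of the chapter -/
def ParAM (α τ ν θ ε : ℝ) : Prop := (0 < ε ∧ ε < 1 / 100 ∧ 0 ≤ τ ∧ 0 ≤ α ∧ α ≤ 3 / 5) ∧
  (3 * ε ≤ ν ∧ 2 * ν ≤ θ ∧ 1 / 3 ≤ θ ∧ θ + 3 * ε ≤ 1 / 2) ∧ ν + 3 / 2 * α + 3 * ε ≤ 1 ∧ α + 2 * ν + 3 * ε ≤ 1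

/-! ### The identity -/

/-- the restriction to n ≤ u -/
noncomputable def sm (u : ℕ) (f : ArithmeticFunction ℝ) : ArithmeticFunction ℝ := ⟨fun n => if n ≤ u then f n else 0, by simp⟩

/-- the restriction to n > u -/
noncomputable def bg (u : ℕ) (f : ArithmeticFunction ℝ) : ArithmeticFunction ℝ := ⟨fun n => if n ≤ u then 0 else f n, by simp⟩

/-- S2 = am² on [1, u] -/
noncomputable def s2 (u : ℕ) : ArithmeticFunction ℝ := sm u (am u ^ 2)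

/-- S3 = am S2 on [1, u] -/
noncomputable def s3 (u : ℕ) : ArithmeticFunction ℝ := sm u (am u * s2 u)

/-- S4 = S3 lt0 on [1, u] -/
noncomputable def s4 (u : ℕ) : ArithmeticFunction ℝ := sm u (s3 u * lt 0 u)

/-- S5 = S2 lt0 on [1, u] -/
noncomputable def s5 (u : ℕ) : ArithmeticFunction ℝ := sm u (s2 u * lt 0 u)

/-- the first factors of the bilinear terms, supported in (u, w] (u² ≤ w) -/
noncomputable def fM (u w : ℕ) : ℕ → ArithmeticFunction ℝ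
  | 0 => lt u w
  | 1 => -eE u
  | 2 => -zt u w
  | 3 => -bg u (s2 u * lt 0 u)
  | 4 => bg u (s3 u * lt 0 u)
  | 5 => bg u (am u * s2 u)
  | _ => bg u (am u ^ 2)

/-- the second factors of the bilinear terms -/
noncomputable def gM (u w : ℕ) : ℕ → ArithmeticFunction ℝ
  | 0 => gG u w
  | 1 => gE u w
  | 2 => gG u w * ArithmeticFunction.vonMangoldt
  | 3 => zB w
  | 4 => zB w ^ 2
  | 5 => lt 0 u * zB w ^ 2
  | _ => am u * lt 0 u * zB w ^ 2 - lt 0 u * zB w - zB w * lB w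

/-- Module Mid (theorem tMid; the identity). Uses: nothing. MODEL: Lib/NLA/Aid.lean.
Proof. As the MODEL up to Λ = gG lt(u,w) - eE gE - zt(u,w) gG Λ + am lt0 + am lB - am² zB lt0 + am³ zB² lt0 - am² zB lB + (terms vanishing for n < (w+1)³: am³ zB³ Λ, am³ zB² lB). Now f = sm u f + bg u f for every f (pointwise), with b2 = bg u (am²), b3 = bg u (am s2), b4 = bg u (s3 lt0), b5 = bg u (s2 lt0): am² = s2 + b2, am s2 = s3 + b3,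
s3 lt0 = s4 + b4, s2 lt0 = s5 + b5, so am² zB lt0 = s5 zB + b5 zB + b2 lt0 zB, am³ zB² lt0 = s4 zB² + b4 zB² + b3 lt0 zB² + b2 am lt0 zB² (am³ = am s2 + am b2 = s3 + b3 + am b2), am² zB lB = s2 zB lB + b2 zB lB. (All by ring after the replacements.) Then sum over n ≤ Y with F n, ∑ (f * g) n F n = CS Y f g F. -/
def MidStmt : Prop := ∀ (u w Y : ℕ) (F : ℕ → ℂ), 1 ≤ u → u ≤ w → Y < (w + 1) ^ 3 →
  ∑ n ∈ Icc 1 Y, ((ArithmeticFunction.vonMangoldt n : ℝ) : ℂ) * F n =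
    ∑ i ∈ range 7, CS Y (fM u w i) (gM u w i) F +
    (CS Y (am u) (lt 0 u) F + CS Y (am u) (lB w) F - CS Y (s5 u) (zB w) F) +
    (CS Y (zB w) (s4 u * zB w) F - CS Y (lB w) (s2 u * zB w) F)

/-- Module Mcv (theorem tMcv; bounds and supports). Uses: NLA.AcvStmt (its first part is the bound of a product: |(f g) n| ≤ T A B). MODEL: Lib/NLA/Acv.lean.
Proof. |sm u f n|, |bg u f n| ≤ |f n|. am ≤ 1, am² ≤ T (Acv), s2 ≤ T, am s2 ≤ T², s3 ≤ T², s3 lt0 ≤ T⁴, s4 ≤ T⁴, s2 lt0 ≤ T³, s5 ≤ T³, zB ≤ 1, zB² ≤ T, lt0 zB² ≤ T³, am lt0 ≤ T², am lt0 zB² ≤ T⁴, lt0 zB ≤ T², lB ≤ T, zB lB ≤ T²; the others are in Acv. All are ≤ 3 T⁶ (T ≥ 1).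
Supports: lt u w, zt u w: definition. eE: NLA.AcvStmt (u < n ≤ u² ≤ w). The bg's: n > u by definition, and n ≤ u² ≤ w since a product of functions supported in [1, u] is supported in [1, u²] (n = d e, d, e ≤ u; am, s2, s3, lt 0 u are supported in [1, u]). -/
def McvStmt : Prop := ∀ (X T : ℝ) (u w : ℕ), Tau X T → 1 ≤ u → u ^ 2 ≤ w →
  (∀ i n : ℕ, 1 ≤ n → (n : ℝ) ≤ X → |fM u w i n| ≤ 3 * T ^ 6 ∧ |gM u w i n| ≤ 3 * T ^ 6) ∧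
  (∀ i n : ℕ, fM u w i n ≠ 0 → u < n ∧ n ≤ w) ∧
  (∀ n : ℕ, 1 ≤ n → (n : ℝ) ≤ X → |s2 u n| ≤ T ^ 4 ∧ |s4 u n| ≤ T ^ 4 ∧ |s5 u n| ≤ T ^ 4) ∧
  ∀ n : ℕ, u < n → s2 u n = 0 ∧ s4 u n = 0 ∧ s5 u n = 0

/-! ### One smooth variable -/

/-- Module Mon (theorem tMon; one smooth variable). Uses: MI.AtyStmt. MODEL: Lib/NLA/Aon.lean (third part).
Proof. For d ≤ u, d ≤ Y the sum over c ∈ Icc 1 (Y/d), c > w, of Ek (d c) is a difference of two sums of Aty, norm ≤ 6 τ(q) ≤ 6 T; |c d| ≤ B; at most u values of d. -/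
def MonStmt : Prop := ∀ (X T B : ℝ) (u w Y q t : ℕ) (a : ℤ) (c : ArithmeticFunction ℝ), Tau X T → 0 ≤ B → (Y : ℝ) ≤ X →
  (q : ℝ) ≤ X → Squarefree q → t ∣ q → Int.gcd a q = 1 → (∀ n : ℕ, u < n → c n = 0) →
  (∀ n : ℕ, 1 ≤ n → (n : ℝ) ≤ X → |c n| ≤ B) → ‖CS Y c (zB w) (Ek a t q)‖ ≤ 6 * T * B * u

/-! ### Two smooth variables -/

/-- Module Mtb (theorem tMtb; the box for Ek, weights 1 and log). Uses: SLN.I2kStmt. MODEL: the last part of Lib/NLA/Atb.lean (Abel summation).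
Proof. P1 ≥ Q1: both sums are 0. Otherwise first part: I2k with m = d, K1 = P1, K2 = Q1, L1 = P2, L2 = Q2, K2 - K1 ≤ Q1. Weight log: ∑_{c1 ∈ Ioc P1 Q1} log c1 g(c1) = log Q1 ∑_{Ioc P1 Q1} g - ∑_{k ∈ Ico (P1+1) Q1} (log(k+1) - log k) ∑_{Ioc P1 k} g, every inner sum is bounded by the first part (k ≤ Q1), total ≤ 2 log Q1 · bound ≤ 2 T · bound. -/
def MtbStmt : Prop := ∀ (X T : ℝ) (q t d P1 Q1 P2 Q2 : ℕ) (a : ℤ), Tau X T → Squarefree q → (q : ℝ) ≤ X → t ∣ q →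
  Int.gcd a q = 1 → (Q1 : ℝ) ≤ X → P2 ≤ Q2 →
  ‖∑ c1 ∈ Ioc P1 Q1, ∑ c2 ∈ Ioc P2 Q2, Ek a t q (d * (c1 * c2))‖ ≤ 6 * T ^ 5 * (Real.sqrt q + (Q1 : ℝ) / q) ∧
  ‖∑ c1 ∈ Ioc P1 Q1, ((Real.log c1 : ℝ) : ℂ) * ∑ c2 ∈ Ioc P2 Q2, Ek a t q (d * (c1 * c2))‖ ≤
    12 * T ^ 6 * (Real.sqrt q + (Q1 : ℝ) / q)

/-- Module Mcg (theorem tMcg; one good cell with two smooth variables, one q). Uses: MtbStmt. MODEL: Lib/NLA/Acg.lean (only the bound of a box is different). -/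
def McgStmt : Prop := ∀ (X T : ℝ) (q t w U Y K i j om : ℕ) (a : ℤ) (e : ℕ → ℝ), Tau X T → Squarefree q → (q : ℝ) ≤ X →
  t ∣ q → Int.gcd a q = 1 → (Y : ℝ) ≤ X → 1 ≤ K → 1 ≤ w → (∀ d, |e d| ≤ 1) → (i : ℝ) + j + 2 ≤ K * Real.log Y →
  ‖∑ m ∈ Icc 1 Y, ∑ n ∈ Icc 1 Y,
      cl K i (fun m => if w < m ∧ m ≤ Y then (((if om = 0 then 1 else Real.log m / T : ℝ)) : ℂ) else 0) m *
      cl K j (fun n => if n ≤ Y then (((∑ d ∈ n.divisors.filter (fun d => d ≤ U ∧ w < n / d), e d) / T : ℝ) : ℂ) else 0) n *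
      Ek a t q (m * n)‖ ≤
    12 * T ^ 5 * U * (Real.sqrt q + (Y : ℝ) / w / q)

/-- Module Mqs (theorem tMqs; the sums over q). Uses: nothing. MODEL: Lib/NLA/Aqs.lean.
Proof. F ⊆ Icc 1 D. ∑ √q ≤ D √D; ∑_{q ≤ D} 1/q ≤ 1 + log D ≤ T (harmonic_le_one_add_log). -/
def MqsStmt : Prop := ∀ (T : ℝ) (D : ℕ) (F : Finset ℕ), Tau D T → 1 ≤ D → (∀ q ∈ F, 1 ≤ q ∧ q ≤ D) →
  ∑ q ∈ F, Real.sqrt q ≤ D * Real.sqrt D ∧ ∑ q ∈ F, 1 / (q : ℝ) ≤ T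

/-- Module Mtw (theorem tMtw; sums with two smooth variables, all q). Uses: MI.AclStmt, MK.AtrStmt, McgStmt, MqsStmt. MODEL: Lib/NLA/Atw.lean.
Proof. As the MODEL; the good cells: I² 12 T⁵ U ∑_q (√q + (Y/w)/q) ≤ 36 z^(2η) T² 12 T⁵ x^ν (x^(3α/2) + 2 x^(1-θ) T) ≤ C T⁸ z^(2η) x^(1-3ε) (ν + 3α/2 + 3ε ≤ 1, ν + 3ε ≤ 2ν ≤ θ). -/
def MtwStmt : Prop := ∀ α τ ν θ ε : ℝ, ParAM α τ ν θ ε → ∃ (η C x0 : ℝ) (A0 : ℕ), 0 < η ∧ 0 ≤ C ∧ 3 ≤ x0 ∧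
  ∀ (x T z : ℝ) (a : ℕ → ℤ) (Y U om : ℕ) (e : ℕ → ℝ) (F : Finset ℕ) (t : ℕ → ℕ), x0 ≤ x → Tau (x ^ (30 : ℝ)) T → 1 ≤ z →
  z ≤ x → (Y : ℝ) ≤ x → (U : ℝ) ≤ x ^ ν → (∀ d, |e d| ≤ 1) →
  (∀ q ∈ F, Mz α τ z x (t q) q ∧ Int.gcd (a q) q = 1) →
  ∑ q ∈ F, ‖∑ m ∈ Icc 1 Y, ∑ n ∈ Icc 1 (Y / m),
      (if ⌊x ^ θ⌋₊ < m then (((if om = 0 then 1 else Real.log m : ℝ)) : ℂ) else 0) *
      ((∑ d ∈ n.divisors.filter (fun d => d ≤ U ∧ ⌊x ^ θ⌋₊ < n / d), e d : ℝ) : ℂ) * Ek (a q) (t q) q (m * n)‖ ≤ Bd C A0 η x T z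

/-! ### The theorem -/

/-- Module Mfi (theorem tMfi; FINAL STATEMENT). Uses: MidStmt, McvStmt, NLA.AonStmt, MonStmt, NLA.AbiStmt, MtwStmt. MODEL: Lib/NLA/Afi.lean.
Proof. As the MODEL: u = ⌊x^ν⌋, w = ⌊x^θ⌋, u² ≤ w. The seven bilinear terms by Abi with f = fM i/(3T⁶), g = gM i/(3T⁶): 7 · 9 T¹² Bd. One smooth variable: 2T u² + 12 T² u + 6 T⁵ u ≤ 20 T⁵ u², D u² ≤ x^(α+2ν). Two smooth variables: Mtw with U = u, coefficients s4/T⁴, s2/T⁴. -/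
def MfiStmt : Prop := ∀ (Φ : SLA.Hyp) (α τ ν θ ε : ℝ), ParAM α τ ν θ ε → BlN Φ α τ ν θ ε → SLA.CoreStmt Φ α τ

end Pool.Agent.Lib.NMA
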