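import Pool.Agent.Lib.NMA.Spec

/-!
MP_00e23e_nt, project NLM, chapter A', module Mcv: bounds and supports of the convolutions.
-/

set_option autoImplicit false

namespace Pool.Agent.Lib.NMA

open Finset Pool.Agent.Lib.EH3 Pool.Agent.Lib.TB Pool.Agent.Results.MP_00e23e_nt Pool.Agent.Lib.MI
open Pool.Agent.Lib.MX (Bd Mz Bd_nonneg Bd_mono rp_le rn_le log_le_T Tau_x)
open Pool.Agent.Lib.NLA (am zt lt zB lB eE gG gE CS BlN)

private lemma Mcv_sub (f g : ArithmeticFunction ℝ) (n : ℕ) : (f - g) n = f n - g n := by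
  have h : (f - g + g) n = f n := by rw [sub_add_cancel]
  rw [ArithmeticFunction.add_apply] at h
  linarith

private lemma Mcv_neg (f : ArithmeticFunction ℝ) (n : ℕ) : (-f) n = -f n := by
  have h : (-f + f) n = (0 : ArithmeticFunction ℝ) n := by rw [neg_add_cancel]
  rw [ArithmeticFunction.add_apply, ArithmeticFunction.zero_apply] at h
  linarith

/-- support of a convolution -/
private lemma Mcv_supp (f g : ArithmeticFunction ℝ) (U V : ℕ) (hf : ∀ n : ℕ, U < n → f n = 0)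
    (hg : ∀ n : ℕ, V < n → g n = 0) (n : ℕ) (hn : U * V < n) : (f * g) n = 0 := by
  rw [ArithmeticFunction.mul_apply]
  apply Finset.sum_eq_zero
  intro p hp
  rw [Nat.mem_divisorsAntidiagonal] at hp
  by_cases h1 : U < p.1
  · rw [hf _ h1, zero_mul]
  · by_cases h2 : V < p.2
    · rw [hg _ h2, mul_zero]
    · exfalso
      have := Nat.mul_le_mul (not_lt.1 h1) (not_lt.1 h2)
      rw [hp.1] at this
      omega

private lemma Mcv_am_app (u n : ℕ) :
    am u n = if n ≤ u then ((ArithmeticFunction.moebius n : ℤ) : ℝ) else 0 := rfl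

private lemma Mcv_zt_app (u w n : ℕ) : zt u w n = if u < n ∧ n ≤ w then (1 : ℝ) else 0 := rfl

private lemma Mcv_lt_app (u w n : ℕ) : lt u w n = if u < n ∧ n ≤ w then Real.log n else 0 := rfl

private lemma Mcv_zB_app (w n : ℕ) : zB w n = if w < n then (1 : ℝ) else 0 := rfl

private lemma Mcv_lB_app (w n : ℕ) : lB w n = if w < n then Real.log n else 0 := rfl

private lemma Mcv_sm_app (u : ℕ) (f : ArithmeticFunction ℝ) (n : ℕ) :
    sm u f n = if n ≤ u then f n else 0 := rfl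

private lemma Mcv_bg_app (u : ℕ) (f : ArithmeticFunction ℝ) (n : ℕ) :
    bg u f n = if n ≤ u then 0 else f n := rfl

private lemma Mcv_sm_abs (u : ℕ) (f : ArithmeticFunction ℝ) (n : ℕ) : |sm u f n| ≤ |f n| := by
  rw [Mcv_sm_app]
  split_ifs
  · exact le_rfl
  · rw [abs_zero]; exact abs_nonneg _

private lemma Mcv_bg_abs (u : ℕ) (f : ArithmeticFunction ℝ) (n : ℕ) : |bg u f n| ≤ |f n| := by
  rw [Mcv_bg_app]
  split_ifs
  · rw [abs_zero]; exact abs_nonneg _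
  · exact le_rfl

private lemma Mcv_sm_supp (u : ℕ) (f : ArithmeticFunction ℝ) (n : ℕ) (hn : u < n) : sm u f n = 0 := by
  rw [Mcv_sm_app, if_neg (not_le.2 hn)]

/-- the support of the part above u of a product of two functions supported in [1, u] -/
private lemma Mcv_bg_supp (u w : ℕ) (huw : u ^ 2 ≤ w) (f g : ArithmeticFunction ℝ)
    (hf : ∀ n : ℕ, u < n → f n = 0) (hg : ∀ n : ℕ, u < n → g n = 0) (n : ℕ)
    (hn : bg u (f * g) n ≠ 0) : u < n ∧ n ≤ w := by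
  rw [Mcv_bg_app] at hn
  by_cases h : n ≤ u
  · rw [if_pos h] at hn; exact absurd rfl hn
  · rw [if_neg h] at hn
    refine ⟨not_le.1 h, ?_⟩
    by_contra hc
    apply hn
    apply Mcv_supp f g u u hf hg n
    have : u * u = u ^ 2 := by ring
    rw [this]
    exact lt_of_le_of_lt huw (not_le.1 hc)

private lemma Mcv_zt (u w n : ℕ) : |zt u w n| ≤ 1 := by
  rw [Mcv_zt_app]
  split_ifs
  · rw [abs_one]
  · rw [abs_zero]; exact zero_le_one

private lemma Mcv_zB (w n : ℕ) : |zB w n| ≤ 1 := by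
  rw [Mcv_zB_app]
  split_ifs
  · rw [abs_one]
  · rw [abs_zero]; exact zero_le_one

private lemma Mcv_lB {X T : ℝ} (hT : Tau X T) (w n : ℕ) (hn : 1 ≤ n) (hnX : (n : ℝ) ≤ X) :
    |lB w n| ≤ T := by
  have h1 : (1 : ℝ) ≤ n := by exact_mod_cast hn
  have h0 := Real.log_nonneg h1
  have h2 := Real.log_le_log (by linarith) hnX
  have h3 := hT.2.1
  rw [Mcv_lB_app]
  split_ifs
  · rw [abs_of_nonneg h0]; linarith
  · rw [abs_zero]; exact zero_le_one.trans hT.1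

theorem tMcv (h1 : NLA.AcvStmt) : McvStmt := by
  intro X T u w hT hu huw
  obtain ⟨hmul, hbd, hE0, -, -, -⟩ := h1 X T u w hT hu
  have hT1 : (1 : ℝ) ≤ T := hT.1
  have hT0 : (0 : ℝ) ≤ T := zero_le_one.trans hT1
  have hpw : ∀ a b : ℕ, a ≤ b → T ^ a ≤ T ^ b := fun a b hab => pow_le_pow_right₀ hT1 hab
  have hp : ∀ a : ℕ, (0 : ℝ) ≤ T ^ a := fun a => pow_nonneg hT0 a
  -- supports
  have sam : ∀ n : ℕ, u < n → am u n = 0 := fun n hn => by rw [Mcv_am_app, if_neg (not_le.2 hn)]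
  have slt : ∀ n : ℕ, u < n → lt 0 u n = 0 := fun n hn => by
    rw [Mcv_lt_app, if_neg (fun h => absurd h.2 (not_le.2 hn))]
  have ss2 : ∀ n : ℕ, u < n → s2 u n = 0 := fun n hn => Mcv_sm_supp u _ n hn
  have ss3 : ∀ n : ℕ, u < n → s3 u n = 0 := fun n hn => Mcv_sm_supp u _ n hn
  have ss4 : ∀ n : ℕ, u < n → s4 u n = 0 := fun n hn => Mcv_sm_supp u _ n hn
  have ss5 : ∀ n : ℕ, u < n → s5 u n = 0 := fun n hn => Mcv_sm_supp u _ n hn
  -- bounds
  have bam : ∀ n : ℕ, 1 ≤ n → (n : ℝ) ≤ X → |am u n| ≤ 1 := fun n a b => (hbd n a b).2.2.2.2.2.2.1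
  have blt : ∀ n : ℕ, 1 ≤ n → (n : ℝ) ≤ X → |lt 0 u n| ≤ T := fun n a b => (hbd n a b).2.2.2.2.2.1
  have bam2 : ∀ n : ℕ, 1 ≤ n → (n : ℝ) ≤ X → |(am u ^ 2) n| ≤ T :=
    fun n a b => (hbd n a b).2.2.2.2.2.2.2.1
  have bzB : ∀ n : ℕ, 1 ≤ n → (n : ℝ) ≤ X → |zB w n| ≤ 1 := fun n _ _ => Mcv_zB w n
  have blB : ∀ n : ℕ, 1 ≤ n → (n : ℝ) ≤ X → |lB w n| ≤ T := fun n a b => Mcv_lB hT w n a b
  have bs2 : ∀ n : ℕ, 1 ≤ n → (n : ℝ) ≤ X → |s2 u n| ≤ T := fun n a b =>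
    (Mcv_sm_abs u (am u ^ 2) n).trans (bam2 n a b)
  have bas2 : ∀ n : ℕ, 1 ≤ n → (n : ℝ) ≤ X → |(am u * s2 u) n| ≤ T ^ 2 := fun n a b =>
    (hmul (am u) (s2 u) 1 T zero_le_one hT0 bam bs2 n a b).trans (le_of_eq (by ring))
  have bs3 : ∀ n : ℕ, 1 ≤ n → (n : ℝ) ≤ X → |s3 u n| ≤ T ^ 2 := fun n a b =>
    (Mcv_sm_abs u (am u * s2 u) n).trans (bas2 n a b)
  have bs3l : ∀ n : ℕ, 1 ≤ n → (n : ℝ) ≤ X → |(s3 u * lt 0 u) n| ≤ T ^ 4 := fun n a b =>
    (hmul (s3 u) (lt 0 u) (T ^ 2) T (hp 2) hT0 bs3 blt n a b).trans (le_of_eq (by ring))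
  have bs2l : ∀ n : ℕ, 1 ≤ n → (n : ℝ) ≤ X → |(s2 u * lt 0 u) n| ≤ T ^ 3 := fun n a b =>
    (hmul (s2 u) (lt 0 u) T T hT0 hT0 bs2 blt n a b).trans (le_of_eq (by ring))
  have bzB2 : ∀ n : ℕ, 1 ≤ n → (n : ℝ) ≤ X → |(zB w ^ 2) n| ≤ T := fun n a b => by
    rw [pow_two]
    exact (hmul (zB w) (zB w) 1 1 zero_le_one zero_le_one bzB bzB n a b).trans (le_of_eq (by ring))
  have bg5 : ∀ n : ℕ, 1 ≤ n → (n : ℝ) ≤ X → |(lt 0 u * zB w ^ 2) n| ≤ T ^ 3 := fun n a b =>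
    (hmul (lt 0 u) (zB w ^ 2) T T hT0 hT0 blt bzB2 n a b).trans (le_of_eq (by ring))
  have bal : ∀ n : ℕ, 1 ≤ n → (n : ℝ) ≤ X → |(am u * lt 0 u) n| ≤ T ^ 2 := fun n a b =>
    (hmul (am u) (lt 0 u) 1 T zero_le_one hT0 bam blt n a b).trans (le_of_eq (by ring))
  have balz : ∀ n : ℕ, 1 ≤ n → (n : ℝ) ≤ X → |(am u * lt 0 u * zB w ^ 2) n| ≤ T ^ 4 := fun n a b =>
    (hmul (am u * lt 0 u) (zB w ^ 2) (T ^ 2) T (hp 2) hT0 bal bzB2 n a b).trans (le_of_eq (by ring))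
  have blz : ∀ n : ℕ, 1 ≤ n → (n : ℝ) ≤ X → |(lt 0 u * zB w) n| ≤ T ^ 2 := fun n a b =>
    (hmul (lt 0 u) (zB w) T 1 hT0 zero_le_one blt bzB n a b).trans (le_of_eq (by ring))
  have bzl : ∀ n : ℕ, 1 ≤ n → (n : ℝ) ≤ X → |(zB w * lB w) n| ≤ T ^ 2 := fun n a b =>
    (hmul (zB w) (lB w) 1 T zero_le_one hT0 bzB blB n a b).trans (le_of_eq (by ring))
  -- comparison with 3 T ^ 6
  have c1 : (1 : ℝ) ≤ 3 * T ^ 6 := by
    have := hpw 0 6 (by norm_num)
    rw [pow_zero] at this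
    linarith
  have cT : ∀ k : ℕ, k ≤ 6 → T ^ k ≤ 3 * T ^ 6 := fun k hk => by
    have := hpw k 6 hk
    have := hp 6
    linarith
  have cT1 : T ≤ 3 * T ^ 6 := by
    have := cT 1 (by norm_num)
    rwa [pow_one] at this
  refine ⟨?_, ?_, ?_, fun n hn => ⟨ss2 n hn, ss4 n hn, ss5 n hn⟩⟩
  · intro i n hn hnX
    obtain ⟨e1, e2, e3, e4, e5, -, -, -, -, -⟩ := hbd n hn hnX
    match i with
    | 0 =>
      refine ⟨e5.trans cT1, e1.trans ?_⟩
      exact mul_le_mul_of_nonneg_left (hpw 4 6 (by norm_num)) (by norm_num)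
    | 1 =>
      refine ⟨?_, e2.trans (mul_le_mul_of_nonneg_left (hpw 5 6 (by norm_num)) (by norm_num))⟩
      change |(-eE u) n| ≤ _
      rw [Mcv_neg, abs_neg]
      have h16 := hpw 1 6 (by norm_num)
      rw [pow_one] at h16
      linarith
    | 2 =>
      refine ⟨?_, e3⟩
      change |(-zt u w) n| ≤ _
      rw [Mcv_neg, abs_neg]
      exact (Mcv_zt u w n).trans c1
    | 3 =>
      refine ⟨?_, (bzB n hn hnX).trans c1⟩
      change |(-bg u (s2 u * lt 0 u)) n| ≤ _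
      rw [Mcv_neg, abs_neg]
      exact (Mcv_bg_abs u _ n).trans ((bs2l n hn hnX).trans (cT 3 (by norm_num)))
    | 4 =>
      exact ⟨(Mcv_bg_abs u _ n).trans ((bs3l n hn hnX).trans (cT 4 (by norm_num))),
        (bzB2 n hn hnX).trans cT1⟩
    | 5 =>
      exact ⟨(Mcv_bg_abs u _ n).trans ((bas2 n hn hnX).trans (cT 2 (by norm_num))),
        (bg5 n hn hnX).trans (cT 3 (by norm_num))⟩
    | (k + 6) =>
      refine ⟨(Mcv_bg_abs u _ n).trans ((bam2 n hn hnX).trans cT1), ?_⟩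
      change |(am u * lt 0 u * zB w ^ 2 - lt 0 u * zB w - zB w * lB w) n| ≤ _
      rw [Mcv_sub, Mcv_sub]
      have a1 := balz n hn hnX
      have a2 := blz n hn hnX
      have a3 := bzl n hn hnX
      have t1 := abs_sub ((am u * lt 0 u * zB w ^ 2) n - (lt 0 u * zB w) n) ((zB w * lB w) n)
      have t2 := abs_sub ((am u * lt 0 u * zB w ^ 2) n) ((lt 0 u * zB w) n)
      have p1 := hpw 2 6 (by norm_num)
      have p2 := hpw 4 6 (by norm_num)
      linarith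
  · intro i n hne
    match i with
    | 0 =>
      change lt u w n ≠ 0 at hne
      rw [Mcv_lt_app] at hne
      by_cases h : u < n ∧ n ≤ w
      · exact h
      · rw [if_neg h] at hne; exact absurd rfl hne
    | 1 =>
      change (-eE u) n ≠ 0 at hne
      rw [Mcv_neg] at hne
      have hE := hE0 n
      by_cases h : n ≤ u ∨ u ^ 2 < n
      · rw [hE h, neg_zero] at hne; exact absurd rfl hne
      · push Not at h
        exact ⟨h.1, h.2.trans huw⟩
    | 2 =>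
      change (-zt u w) n ≠ 0 at hne
      rw [Mcv_neg, Mcv_zt_app] at hne
      by_cases h : u < n ∧ n ≤ w
      · exact h
      · rw [if_neg h, neg_zero] at hne; exact absurd rfl hne
    | 3 =>
      change (-bg u (s2 u * lt 0 u)) n ≠ 0 at hne
      rw [Mcv_neg] at hne
      exact Mcv_bg_supp u w huw _ _ ss2 slt n (fun h => hne (by rw [h, neg_zero]))
    | 4 => exact Mcv_bg_supp u w huw _ _ ss3 slt n hne
    | 5 => exact Mcv_bg_supp u w huw _ _ sam ss2 n hne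
    | (k + 6) =>
      change bg u (am u ^ 2) n ≠ 0 at hne
      rw [pow_two] at hne
      exact Mcv_bg_supp u w huw _ _ sam sam n hne
  · intro n hn hnX
    refine ⟨(bs2 n hn hnX).trans ?_, (Mcv_sm_abs u _ n).trans (bs3l n hn hnX),
      (Mcv_sm_abs u _ n).trans ((bs2l n hn hnX).trans (hpw 3 4 (by norm_num)))⟩
    have := hpw 1 4 (by norm_num)
    rwa [pow_one] at this

end Pool.Agent.Lib.NMA
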