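import Pool.Agent.Lib.NMA.Spec

/-! MP_00e23e_nt, Lib/NMA, module Mfi (model NLA/Afi): from the bilinear theorem BlN to CoreStmt, ν up to 1/5. -/

set_option autoImplicit false

namespace Pool.Agent.Lib.NMA

open Finset Pool.Agent.Lib.EH3 Pool.Agent.Lib.TB Pool.Agent.Results.MP_00e23e_nt Pool.Agent.Lib.MI
open Pool.Agent.Lib.MX (Bd Mz Bd_nonneg Bd_mono rp_le rn_le log_le_T Tau_x)
open Pool.Agent.Lib.NLA (am zt lt zB lB eE gG gE CS BlN)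

/-- normalised and truncated coefficient -/
private noncomputable def Mfi_c (Y : ℕ) (A : ℝ) (f : ArithmeticFunction ℝ) (m : ℕ) : ℂ :=
  if m ≤ Y then ((f m / A : ℝ) : ℂ) else 0

private lemma Mfi_c_norm {Y : ℕ} {A X : ℝ} {f : ArithmeticFunction ℝ} (hA : 0 < A) (hY : (Y : ℝ) ≤ X)
    (h : ∀ n : ℕ, 1 ≤ n → (n : ℝ) ≤ X → |f n| ≤ A) (m : ℕ) : ‖Mfi_c Y A f m‖ ≤ 1 := by
  unfold Mfi_c
  split_ifs with hm
  · rw [Complex.norm_real, Real.norm_eq_abs, abs_div, abs_of_pos hA, div_le_one hA]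
    rcases Nat.eq_zero_or_pos m with h0 | h0
    · rw [h0, ArithmeticFunction.map_zero, abs_zero]
      exact hA.le
    · exact h m h0 (le_trans (by exact_mod_cast hm) hY)
  · simp

private lemma Mfi_CS {Y : ℕ} {A B : ℝ} (hA : 0 < A) (hB : 0 < B) (f g : ArithmeticFunction ℝ) (F : ℕ → ℂ) :
    ‖CS Y f g F‖ = A * B * ‖∑ m ∈ Icc 1 Y, ∑ n ∈ Icc 1 (Y / m),
      Mfi_c Y A f m * Mfi_c Y B g n * F (m * n)‖ := by
  have h : CS Y f g F = ((A * B : ℝ) : ℂ) * ∑ m ∈ Icc 1 Y, ∑ n ∈ Icc 1 (Y / m),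
      Mfi_c Y A f m * Mfi_c Y B g n * F (m * n) := by
    unfold CS
    rw [mul_sum]
    refine sum_congr rfl fun m hm => ?_
    rw [mul_sum]
    refine sum_congr rfl fun n hn => ?_
    rw [mem_Icc] at hm hn
    have hnY : n ≤ Y := hn.2.trans (Nat.div_le_self Y m)
    unfold Mfi_c
    rw [if_pos hm.2, if_pos hnY]
    have hA' : (A : ℂ) ≠ 0 := by exact_mod_cast hA.ne'
    have hB' : (B : ℂ) ≠ 0 := by exact_mod_cast hB.ne'
    push_cast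
    field_simp
  rw [h, norm_mul, Complex.norm_real, Real.norm_eq_abs, abs_of_pos (mul_pos hA hB)]

private lemma Mfi_conv {U w : ℕ} (n : ℕ) {c : ArithmeticFunction ℝ} (hc : ∀ d : ℕ, U < d → c d = 0) :
    (c * zB w) n = ∑ d ∈ n.divisors.filter (fun d => d ≤ U ∧ w < n / d), c d := by
  rw [ArithmeticFunction.mul_apply, Nat.sum_divisorsAntidiagonal (f := fun d k => c d * zB w k), sum_filter]
  refine sum_congr rfl fun d _ => ?_
  have hz : zB w (n / d) = if w < n / d then 1 else 0 := rfl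
  rw [hz]
  by_cases h1 : w < n / d
  · by_cases h2 : d ≤ U
    · rw [if_pos h1, if_pos ⟨h2, h1⟩, mul_one]
    · rw [hc d (by omega), zero_mul, ite_self]
  · have h3 : ¬ (d ≤ U ∧ w < n / d) := fun h => h1 h.2
    rw [if_neg h1, if_neg h3, mul_zero]

private lemma Mfi_tw {Y U w : ℕ} (om : ℕ) {A : ℝ} (hA : 0 < A) {c b : ArithmeticFunction ℝ}
    (hc : ∀ d : ℕ, U < d → c d = 0)
    (hb : ∀ m : ℕ, b m = if w < m then (if om = 0 then 1 else Real.log m) else 0) (F : ℕ → ℂ) :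
    ‖CS Y b (c * zB w) F‖ = A * ‖∑ m ∈ Icc 1 Y, ∑ n ∈ Icc 1 (Y / m),
      (if w < m then (((if om = 0 then 1 else Real.log m : ℝ)) : ℂ) else 0) *
      ((∑ d ∈ n.divisors.filter (fun d => d ≤ U ∧ w < n / d), c d / A : ℝ) : ℂ) * F (m * n)‖ := by
  have h : CS Y b (c * zB w) F = (A : ℂ) * ∑ m ∈ Icc 1 Y, ∑ n ∈ Icc 1 (Y / m),
      (if w < m then (((if om = 0 then 1 else Real.log m : ℝ)) : ℂ) else 0) *
      ((∑ d ∈ n.divisors.filter (fun d => d ≤ U ∧ w < n / d), c d / A : ℝ) : ℂ) * F (m * n) := by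
    unfold CS
    rw [mul_sum]
    refine sum_congr rfl fun m _ => ?_
    rw [mul_sum]
    refine sum_congr rfl fun n _ => ?_
    have h1 : (((c * zB w) n : ℝ) : ℂ) = (A : ℂ) *
        ((∑ d ∈ n.divisors.filter (fun d => d ≤ U ∧ w < n / d), c d / A : ℝ) : ℂ) := by
      rw [Mfi_conv n hc, ← Complex.ofReal_mul, mul_sum]
      congr 1
      refine sum_congr rfl fun d _ => ?_
      field_simp
    have h2 : ((b m : ℝ) : ℂ) = if w < m then (((if om = 0 then 1 else Real.log m : ℝ)) : ℂ) else 0 := by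
      rw [hb m]
      by_cases hm : w < m
      · rw [if_pos hm, if_pos hm]
      · rw [if_neg hm, if_neg hm, Complex.ofReal_zero]
    rw [h1, h2]
    ring
  rw [h, norm_mul, Complex.norm_real, Real.norm_eq_abs, abs_of_pos hA]

/-- the decomposition for one modulus -/
private lemma Mfi_one (h1 : MidStmt) (h2 : McvStmt) (h3 : NLA.AonStmt) (h4 : MonStmt) {X T : ℝ} (hT : Tau X T)
    {u w Y q t : ℕ} {a : ℤ} (hu : 1 ≤ u) (huw : u ^ 2 ≤ w) (hYw : Y < (w + 1) ^ 3) (hY : (Y : ℝ) ≤ X)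
    (hq : Squarefree q) (htq : t ∣ q) (ha : Int.gcd a q = 1) (hqx : (q : ℝ) ≤ X) :
    ‖∑ n ∈ Icc 1 Y, ((ArithmeticFunction.vonMangoldt n : ℝ) : ℂ) * Ek a t q n‖ ≤
      20 * T ^ 5 * (u : ℝ) ^ 2 +
      9 * T ^ 12 * ∑ i ∈ range 7, ‖∑ m ∈ Icc 1 Y, ∑ n ∈ Icc 1 (Y / m),
        Mfi_c Y (3 * T ^ 6) (fM u w i) m * Mfi_c Y (3 * T ^ 6) (gM u w i) n * Ek a t q (m * n)‖ +
      T ^ 4 * ‖∑ m ∈ Icc 1 Y, ∑ n ∈ Icc 1 (Y / m),
        (if w < m then (((if 0 = 0 then 1 else Real.log m : ℝ)) : ℂ) else 0) *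
        ((∑ d ∈ n.divisors.filter (fun d => d ≤ u ∧ w < n / d), s4 u d / T ^ 4 : ℝ) : ℂ) *
          Ek a t q (m * n)‖ +
      T ^ 4 * ‖∑ m ∈ Icc 1 Y, ∑ n ∈ Icc 1 (Y / m),
        (if w < m then (((if 1 = 0 then 1 else Real.log m : ℝ)) : ℂ) else 0) *
        ((∑ d ∈ n.divisors.filter (fun d => d ≤ u ∧ w < n / d), s2 u d / T ^ 4 : ℝ) : ℂ) *
          Ek a t q (m * n)‖ := by
  have hT' := hT
  obtain ⟨hT1, hT2, hT3⟩ := hT'
  have hT0 : (0 : ℝ) < T := by linarith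
  have huw' : u ≤ w := by nlinarith
  obtain ⟨-, -, c1, c2⟩ := h2 X T u w hT hu huw
  obtain ⟨o1, o2, -⟩ := h3 X T u w Y q t a hT hu hY hqx hq htq ha
  have o3 := h4 X T (T ^ 4) u w Y q t a (s5 u) hT (by positivity) hY hqx hq htq ha (fun n hn => (c2 n hn).2.2)
    (fun n a b => (c1 n a b).2.2)
  rw [h1 u w Y (fun n => Ek a t q n) hu huw' hYw]
  have s1 : ∀ i, ‖CS Y (fM u w i) (gM u w i) (fun n => Ek a t q n)‖ =
      9 * T ^ 12 * ‖∑ m ∈ Icc 1 Y, ∑ n ∈ Icc 1 (Y / m),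
        Mfi_c Y (3 * T ^ 6) (fM u w i) m * Mfi_c Y (3 * T ^ 6) (gM u w i) n * Ek a t q (m * n)‖ := by
    intro i
    rw [Mfi_CS (Y := Y) (by positivity : (0 : ℝ) < 3 * T ^ 6) (by positivity : (0 : ℝ) < 3 * T ^ 6) (fM u w i)
      (gM u w i) (fun n => Ek a t q n)]
    ring
  have s4' := Mfi_tw (Y := Y) (w := w) 0 (by positivity : (0 : ℝ) < T ^ 4) (b := zB w) (fun d hd => (c2 d hd).2.1)
    (fun m => by simp [zB]) (fun n => Ek a t q n)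
  have s5' := Mfi_tw (Y := Y) (w := w) 1 (by positivity : (0 : ℝ) < T ^ 4) (b := lB w) (fun d hd => (c2 d hd).1)
    (fun m => by simp [lB]) (fun n => Ek a t q n)
  set S0 : ℂ := ∑ i ∈ range 7, CS Y (fM u w i) (gM u w i) (fun n => Ek a t q n) with hS0
  set S4 : ℂ := CS Y (zB w) (s4 u * zB w) (fun n => Ek a t q n)
  set S5 : ℂ := CS Y (lB w) (s2 u * zB w) (fun n => Ek a t q n)
  set R1 : ℂ := CS Y (am u) (lt 0 u) (fun n => Ek a t q n) with hR1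
  set R2 : ℂ := CS Y (am u) (lB w) (fun n => Ek a t q n) with hR2
  set R3 : ℂ := CS Y (s5 u) (zB w) (fun n => Ek a t q n) with hR3
  have o1' : ‖R1‖ ≤ 2 * T * (u : ℝ) ^ 2 := o1
  have o2' : ‖R2‖ ≤ 12 * T ^ 2 * u := o2
  have o3' : ‖R3‖ ≤ 6 * T * T ^ 4 * u := o3
  have s0 : ‖S0‖ ≤ 9 * T ^ 12 * ∑ i ∈ range 7, ‖∑ m ∈ Icc 1 Y, ∑ n ∈ Icc 1 (Y / m),
        Mfi_c Y (3 * T ^ 6) (fM u w i) m * Mfi_c Y (3 * T ^ 6) (gM u w i) n * Ek a t q (m * n)‖ := by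
    rw [hS0, mul_sum]
    refine (norm_sum_le _ _).trans (le_of_eq ?_)
    exact sum_congr rfl fun i _ => s1 i
  have t1 : ‖S0 + (R1 + R2 - R3) + (S4 - S5)‖ ≤ ‖S0‖ + (‖R1‖ + ‖R2‖ + ‖R3‖) + (‖S4‖ + ‖S5‖) := by
    have a1 := norm_add_le (S0 + (R1 + R2 - R3)) (S4 - S5)
    have a2 := norm_add_le S0 (R1 + R2 - R3)
    have a5 := norm_sub_le (R1 + R2) R3
    have a6 := norm_add_le R1 R2
    have a7 := norm_sub_le S4 S5
    linarith
  have huR : (1 : ℝ) ≤ u := by exact_mod_cast hu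
  have e2 : (u : ℝ) ≤ (u : ℝ) ^ 2 := le_self_pow₀ huR (by norm_num)
  have q1 : 2 * T * (u : ℝ) ^ 2 ≤ 2 * T ^ 5 * (u : ℝ) ^ 2 := by
    have e1 : T ≤ T ^ 5 := le_self_pow₀ hT1 (by norm_num)
    gcongr
  have q2 : 12 * T ^ 2 * (u : ℝ) ≤ 12 * T ^ 5 * (u : ℝ) ^ 2 := by
    have e1 : T ^ 2 ≤ T ^ 5 := pow_le_pow_right₀ hT1 (by norm_num)
    calc 12 * T ^ 2 * (u : ℝ) ≤ 12 * T ^ 5 * (u : ℝ) := by gcongr
      _ ≤ 12 * T ^ 5 * (u : ℝ) ^ 2 := by gcongr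
  have q3 : 6 * T * T ^ 4 * (u : ℝ) ≤ 6 * T ^ 5 * (u : ℝ) ^ 2 := by
    calc 6 * T * T ^ 4 * (u : ℝ) = 6 * T ^ 5 * (u : ℝ) := by ring
      _ ≤ 6 * T ^ 5 * (u : ℝ) ^ 2 := by gcongr
  rw [← s4', ← s5']
  linarith

theorem tMfi (h1 : MidStmt) (h2 : McvStmt) (h3 : NLA.AonStmt) (h4 : MonStmt) (h5 : NLA.AbiStmt) (h6 : MtwStmt) :
    MfiStmt := by
  intro Φ α τ ν θ ε hPar hBl
  have hPar' := hPar
  obtain ⟨⟨hε0, hε1, hτ0, hα0, hα1⟩, ⟨hν, hνθ, hθ1, hθ2⟩, hp1, hp2⟩ := hPar'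
  obtain ⟨η1, C1, x1, A1, hη1, hC1, hx1, hA⟩ := h5 Φ α τ ν θ ε hα1 hε0 hε1 hν hθ2 hBl
  obtain ⟨η2, C2, x2, A2, hη2, hC2, hx2, hW⟩ := h6 α τ ν θ ε hPar
  have hν0 : 0 < ν := by linarith
  have hθ0 : 0 < θ := by linarith
  set η : ℝ := min (min η1 η2) ε with hη
  have hη0 : 0 < η := lt_min (lt_min hη1 hη2) hε0
  have hηa : η ≤ η1 := (min_le_left _ _).trans (min_le_left _ _)
  have hηb : η ≤ η2 := (min_le_left _ _).trans (min_le_right _ _)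
  have hηc : η ≤ ε := min_le_right _ _
  refine ⟨η, 20 + 63 * C1 + 2 * C2, max x1 x2, A1 + A2 + 12, hη0, by positivity, ?_⟩
  intro x T z a Y F t hx hTau30 hz1 hzx hY hF hNst
  have hxa : x1 ≤ x := (le_max_left _ _).trans hx
  have hxb : x2 ≤ x := (le_max_right _ _).trans hx
  have hx3 : 3 ≤ x := hx1.trans hxa
  have hx0 : 0 < x := by linarith
  have hx1' : 1 ≤ x := by linarith
  obtain ⟨hT1, hT2, hT3⟩ := hTau30
  have hTau30 : Tau (x ^ (30 : ℝ)) T := ⟨hT1, hT2, hT3⟩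
  have hT0 : 0 < T := by linarith
  have hexp : ∀ r : ℝ, r ≤ 30 → x ^ r ≤ x ^ (30 : ℝ) := fun r hr => Real.rpow_le_rpow_of_exponent_le hx1' hr
  have hxX : x ≤ x ^ (30 : ℝ) := by
    have h := hexp 1 (by norm_num)
    rwa [Real.rpow_one] at h
  set u : ℕ := ⌊x ^ ν⌋₊ with hu
  set w : ℕ := ⌊x ^ θ⌋₊ with hw
  have hu1 : 1 ≤ u := by
    rw [hu]
    exact Nat.le_floor (by exact_mod_cast Real.one_le_rpow hx1' hν0.le)
  have hule : (u : ℝ) ≤ x ^ ν := Nat.floor_le (by positivity)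
  have hwle : (w : ℝ) ≤ x ^ θ := Nat.floor_le (by positivity)
  have hult : ∀ n : ℕ, u < n → x ^ ν < n := fun n hn => Nat.lt_of_floor_lt hn
  have hu2 : (u : ℝ) ^ 2 ≤ x ^ (2 * ν) := by
    calc (u : ℝ) ^ 2 ≤ (x ^ ν) ^ 2 := by gcongr
      _ = x ^ (2 * ν) := by
        rw [← Real.rpow_natCast, ← Real.rpow_mul hx0.le, mul_comm]
        norm_num
  have huw : u ^ 2 ≤ w := by
    rw [hw]
    apply Nat.le_floor
    push_cast
    exact hu2.trans (Real.rpow_le_rpow_of_exponent_le hx1' hνθ)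
  have huX : ((u : ℕ) : ℝ) ≤ x ^ (30 : ℝ) := hule.trans (hexp _ (by linarith))
  have hYw : Y < (w + 1) ^ 3 := by
    have hw1 : x ^ θ < (w : ℝ) + 1 := by
      rw [hw]
      exact Nat.lt_floor_add_one _
    have hxw : x ≤ (x ^ θ) ^ 3 := by
      have e : (x ^ θ) ^ 3 = x ^ (θ * 3) := by
        rw [← Real.rpow_natCast, ← Real.rpow_mul hx0.le]
        norm_num
      rw [e]
      calc x = x ^ (1 : ℝ) := (Real.rpow_one x).symm
        _ ≤ x ^ (θ * 3) := Real.rpow_le_rpow_of_exponent_le hx1' (by linarith)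
    have h : (Y : ℝ) < ((w : ℝ) + 1) ^ 3 := by
      calc (Y : ℝ) ≤ (x ^ θ) ^ 3 := hY.trans hxw
        _ < ((w : ℝ) + 1) ^ 3 := by
          apply pow_lt_pow_left₀ hw1 (by positivity) (by norm_num)
    exact_mod_cast h
  have hYX : (Y : ℝ) ≤ x ^ (30 : ℝ) := hY.trans hxX
  obtain ⟨cv, csup, cs, c0⟩ := h2 (x ^ (30 : ℝ)) T u w hTau30 hu1 huw
  have hq : ∀ q ∈ F, Squarefree q ∧ t q ∣ q ∧ (q : ℝ) ≤ x ^ α ∧ Int.gcd (a q) q = 1 := by
    intro q hqF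
    obtain ⟨hM, hFr⟩ := hF q hqF
    obtain ⟨m1, m2, m3, m4, m5⟩ := hM
    exact ⟨m1, m2, m3, hFr⟩
  have hcard : (F.card : ℝ) ≤ x ^ α := by
    have hsub : F ⊆ Icc 1 ⌊x ^ α⌋₊ := by
      intro q hqF
      obtain ⟨m1, m2, m3, m4⟩ := hq q hqF
      exact mem_Icc.2 ⟨Nat.pos_of_ne_zero m1.ne_zero, Nat.le_floor m3⟩
    have h := card_le_card hsub
    rw [Nat.card_Icc] at h
    have h' : F.card ≤ ⌊x ^ α⌋₊ := by omega
    calc (F.card : ℝ) ≤ (⌊x ^ α⌋₊ : ℝ) := by exact_mod_cast h'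
      _ ≤ x ^ α := Nat.floor_le (by positivity)
  -- the norms of the coefficients
  have hA3 : (0 : ℝ) < 3 * T ^ 6 := by positivity
  have n1 := fun i => Mfi_c_norm (f := fM u w i) hA3 hYX (fun n a b => (cv i n a b).1)
  have n2 := fun i => Mfi_c_norm (f := gM u w i) hA3 hYX (fun n a b => (cv i n a b).2)
  -- the supports
  have s1 : ∀ i m, Mfi_c Y (3 * T ^ 6) (fM u w i) m ≠ 0 → x ^ ν < m ∧ (m : ℝ) ≤ x ^ θ := by
    intro i m hm
    have hm' : fM u w i m ≠ 0 := by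
      intro hcon
      apply hm
      unfold Mfi_c
      rw [hcon]
      simp
    obtain ⟨k1, k2⟩ := csup i m hm'
    exact ⟨hult m k1, le_trans (by exact_mod_cast k2) hwle⟩
  have b1 := fun i => hA x T z a Y _ _ F t hxa hTau30 hz1 hzx hY (n1 i) (n2 i) (s1 i) hF hNst
  -- two smooth variables
  have hT4 : (0 : ℝ) < T ^ 4 := by positivity
  have hco : ∀ c : ArithmeticFunction ℝ, (∀ n : ℕ, 1 ≤ n → (n : ℝ) ≤ x ^ (30 : ℝ) → |c n| ≤ T ^ 4) →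
      (∀ n : ℕ, u < n → c n = 0) → ∀ d, |c d / T ^ 4| ≤ 1 := by
    intro c k1 k2 d
    rw [abs_div, abs_of_pos hT4, div_le_one hT4]
    rcases Nat.eq_zero_or_pos d with h0 | h0
    · rw [h0, ArithmeticFunction.map_zero, abs_zero]
      exact hT4.le
    · by_cases hd : (d : ℝ) ≤ x ^ (30 : ℝ)
      · exact k1 d h0 hd
      · have : u < d := by
          have h : ((u : ℕ) : ℝ) < d := lt_of_le_of_lt huX (not_le.1 hd)
          exact_mod_cast h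
        rw [k2 d this, abs_zero]
        exact hT4.le
  have b4 := hW x T z a Y u 0 _ F t hxb hTau30 hz1 hzx hY hule
    (hco (s4 u) (fun n a b => (cs n a b).2.1) (fun n hn => (c0 n hn).2.1)) hF
  have b5 := hW x T z a Y u 1 _ F t hxb hTau30 hz1 hzx hY hule
    (hco (s2 u) (fun n a b => (cs n a b).1) (fun n hn => (c0 n hn).1)) hF
  rw [← hw] at b4 b5
  have hsum : ∑ q ∈ F, ‖∑ n ∈ Icc 1 Y, (ArithmeticFunction.vonMangoldt n : ℂ) * Ek (a q) (t q) q n‖ ≤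
      (F.card : ℝ) * (20 * T ^ 5 * (u : ℝ) ^ 2) + 9 * T ^ 12 * (7 * Bd C1 A1 η1 x T z) +
        T ^ 4 * Bd C2 A2 η2 x T z + T ^ 4 * Bd C2 A2 η2 x T z := by
    have hone := fun q hqF => Mfi_one h1 h2 h3 h4 hTau30 hu1 huw hYw hYX (hq q hqF).1 (hq q hqF).2.1
      (hq q hqF).2.2.2 ((hq q hqF).2.2.1.trans (hexp α (by linarith)))
    refine (sum_le_sum hone).trans ?_
    rw [sum_add_distrib, sum_add_distrib, sum_add_distrib, sum_const, nsmul_eq_mul, ← mul_sum, ← mul_sum,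
      ← mul_sum, sum_comm]
    have h7 : ∑ i ∈ range 7, ∑ q ∈ F, ‖∑ m ∈ Icc 1 Y, ∑ n ∈ Icc 1 (Y / m),
        Mfi_c Y (3 * T ^ 6) (fM u w i) m * Mfi_c Y (3 * T ^ 6) (gM u w i) n * Ek (a q) (t q) q (m * n)‖ ≤
        7 * Bd C1 A1 η1 x T z := by
      calc _ ≤ ∑ _i ∈ range 7, Bd C1 A1 η1 x T z := sum_le_sum fun i _ => b1 i
        _ = 7 * Bd C1 A1 η1 x T z := by
          rw [sum_const, card_range, nsmul_eq_mul]
          norm_num
    gcongr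
  -- the numerical end
  have hz0 : 0 < z := by linarith
  have hzη : 0 < z ^ η := Real.rpow_pos_of_pos hz0 _
  have hxz : 0 < x / z ^ η := by positivity
  have p1 : (F.card : ℝ) * (20 * T ^ 5 * (u : ℝ) ^ 2) ≤ 20 * T ^ (A1 + A2 + 12) * (x / z ^ η) := by
    calc (F.card : ℝ) * (20 * T ^ 5 * (u : ℝ) ^ 2) ≤ x ^ α * (20 * T ^ 5 * x ^ (2 * ν)) := by gcongr
      _ = 20 * T ^ 5 * (x ^ α * x ^ (2 * ν)) := by ring
      _ = 20 * T ^ 5 * x ^ (α + 2 * ν) := by rw [← Real.rpow_add hx0]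
      _ ≤ 20 * T ^ 5 * x ^ (1 - η) := by
          apply mul_le_mul_of_nonneg_left _ (by positivity)
          exact Real.rpow_le_rpow_of_exponent_le hx1' (by linarith)
      _ ≤ 20 * T ^ 5 * (x / z ^ η) := mul_le_mul_of_nonneg_left (rp_le hz1 hzx hη0.le) (by positivity)
      _ ≤ 20 * T ^ (A1 + A2 + 12) * (x / z ^ η) := by
          apply mul_le_mul_of_nonneg_right _ hxz.le
          apply mul_le_mul_of_nonneg_left _ (by norm_num)
          exact pow_le_pow_right₀ hT1 (by omega)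
  have hBd1 : Bd C1 A1 η1 x T z ≤ C1 * T ^ A1 * (x / z ^ η) :=
    Bd_mono hC1 le_rfl (le_refl A1) hηa hT1 hx0.le hz1 (x := x)
  have hBd2 : Bd C2 A2 η2 x T z ≤ C2 * T ^ A2 * (x / z ^ η) :=
    Bd_mono hC2 le_rfl (le_refl A2) hηb hT1 hx0.le hz1 (x := x)
  have pw : ∀ (k A : ℕ) (C : ℝ), 0 ≤ C → k ≤ 12 → A ≤ A1 + A2 →
      T ^ k * (C * T ^ A * (x / z ^ η)) ≤ C * T ^ (A1 + A2 + 12) * (x / z ^ η) := by
    intro k A C hC hk hAA
    calc T ^ k * (C * T ^ A * (x / z ^ η)) = C * T ^ (A + k) * (x / z ^ η) := by ring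
      _ ≤ C * T ^ (A1 + A2 + 12) * (x / z ^ η) := by
        apply mul_le_mul_of_nonneg_right _ hxz.le
        apply mul_le_mul_of_nonneg_left _ hC
        exact pow_le_pow_right₀ hT1 (by omega)
  have m12 : T ^ 12 * Bd C1 A1 η1 x T z ≤ C1 * T ^ (A1 + A2 + 12) * (x / z ^ η) :=
    (mul_le_mul_of_nonneg_left hBd1 (by positivity)).trans (pw 12 A1 C1 hC1 (by norm_num) (by omega))
  have m4 : T ^ 4 * Bd C2 A2 η2 x T z ≤ C2 * T ^ (A1 + A2 + 12) * (x / z ^ η) :=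
    (mul_le_mul_of_nonneg_left hBd2 (by positivity)).trans (pw 4 A2 C2 hC2 (by norm_num) (by omega))
  unfold MX.Bd
  calc ∑ q ∈ F, ‖∑ n ∈ Icc 1 Y, (ArithmeticFunction.vonMangoldt n : ℂ) * Ek (a q) (t q) q n‖
      ≤ _ := hsum
    _ ≤ 20 * T ^ (A1 + A2 + 12) * (x / z ^ η) + 63 * (C1 * T ^ (A1 + A2 + 12) * (x / z ^ η)) +
        2 * (C2 * T ^ (A1 + A2 + 12) * (x / z ^ η)) := by linarith
    _ = (20 + 63 * C1 + 2 * C2) * T ^ (A1 + A2 + 12) * (x / z ^ η) := by ring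

end Pool.Agent.Lib.NMA
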