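import Pool.Agent.Lib.NMA.Spec

/-!
MP_00e23e_nt, project NLM, chapter A', module Mid: the identity for the von Mangoldt function with cut
small products.
-/

set_option autoImplicit false

namespace Pool.Agent.Lib.NMA

open Finset Pool.Agent.Lib.EH3 Pool.Agent.Lib.TB Pool.Agent.Results.MP_00e23e_nt Pool.Agent.Lib.MI
open Pool.Agent.Lib.MX (Bd Mz Bd_nonneg Bd_mono rp_le rn_le log_le_T Tau_x)
open Pool.Agent.Lib.NLA (am zt lt zB lB eE gG gE CS BlN)

private lemma Mid_sub_apply (A B : ArithmeticFunction ℝ) (n : ℕ) : (A - B) n = A n - B n := by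
  have h : ((A - B) + B) n = A n := by rw [sub_add_cancel]
  rw [ArithmeticFunction.add_apply] at h
  linarith

/-- the sum over n ≤ Y of h n F n -/
private noncomputable def Mid_S (Y : ℕ) (F : ℕ → ℂ) (h : ArithmeticFunction ℝ) : ℂ :=
  ∑ n ∈ Icc 1 Y, ((h n : ℝ) : ℂ) * F n

private lemma Mid_S_add (Y : ℕ) (F : ℕ → ℂ) (g h : ArithmeticFunction ℝ) :
    Mid_S Y F (g + h) = Mid_S Y F g + Mid_S Y F h := by
  unfold Mid_S
  rw [← sum_add_distrib]
  refine sum_congr rfl fun n _ => ?_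
  rw [ArithmeticFunction.add_apply, Complex.ofReal_add]
  ring

private lemma Mid_S_sub (Y : ℕ) (F : ℕ → ℂ) (g h : ArithmeticFunction ℝ) :
    Mid_S Y F (g - h) = Mid_S Y F g - Mid_S Y F h := by
  unfold Mid_S
  rw [← sum_sub_distrib]
  refine sum_congr rfl fun n _ => ?_
  rw [Mid_sub_apply, Complex.ofReal_sub]
  ring

private lemma Mid_sum (F : ℕ → ℂ) (A B : ArithmeticFunction ℝ) (Y : ℕ) :
    Mid_S Y F (A * B) = CS Y A B F := by
  unfold Mid_S CS
  have h1 : ∑ n ∈ Icc 1 Y, (((A * B) n : ℝ) : ℂ) * F n =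
      ∑ n ∈ Icc 1 Y, ∑ x ∈ n.divisorsAntidiagonal,
        ((A x.1 : ℝ) : ℂ) * ((B x.2 : ℝ) : ℂ) * F (x.1 * x.2) := by
    refine Finset.sum_congr rfl fun n _ => ?_
    rw [ArithmeticFunction.mul_apply, Complex.ofReal_sum, Finset.sum_mul]
    refine Finset.sum_congr rfl fun x hx => ?_
    rw [(Nat.mem_divisorsAntidiagonal.mp hx).1, Complex.ofReal_mul]
  rw [h1, Finset.sum_sigma', Finset.sum_sigma']
  refine Finset.sum_bij' (fun x _ => (⟨x.2.1, x.2.2⟩ : Σ _ : ℕ, ℕ))
    (fun y _ => (⟨y.1 * y.2, (y.1, y.2)⟩ : Σ _ : ℕ, ℕ × ℕ)) ?_ ?_ ?_ ?_ ?_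
  · rintro ⟨n, b, c⟩ hx
    rw [Finset.mem_sigma, Finset.mem_Icc, Nat.mem_divisorsAntidiagonal] at hx
    obtain ⟨⟨h3, h4⟩, h5, h6⟩ := hx
    dsimp only at h3 h4 h5 h6
    have hb : 0 < b := by
      rcases Nat.eq_zero_or_pos b with h | h
      · rw [h, zero_mul] at h5
        omega
      · exact h
    have hc : 0 < c := by
      rcases Nat.eq_zero_or_pos c with h | h
      · rw [h, mul_zero] at h5
        omega
      · exact h
    rw [Finset.mem_sigma, Finset.mem_Icc, Finset.mem_Icc]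
    dsimp only
    have h7 : b ≤ b * c := Nat.le_mul_of_pos_right b hc
    refine ⟨⟨hb, by omega⟩, hc, ?_⟩
    rw [Nat.le_div_iff_mul_le hb, mul_comm]
    omega
  · rintro ⟨b, c⟩ hy
    rw [Finset.mem_sigma, Finset.mem_Icc, Finset.mem_Icc] at hy
    obtain ⟨⟨h3, h4⟩, h5, h6⟩ := hy
    dsimp only at h3 h4 h5 h6
    rw [Nat.le_div_iff_mul_le (by omega), mul_comm] at h6
    have h8 : 0 < b * c := Nat.mul_pos (by omega) (by omega)
    rw [Finset.mem_sigma, Finset.mem_Icc, Nat.mem_divisorsAntidiagonal]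
    exact ⟨⟨h8, h6⟩, rfl, h8.ne'⟩
  · rintro ⟨n, b, c⟩ hx
    rw [Finset.mem_sigma, Finset.mem_Icc, Nat.mem_divisorsAntidiagonal] at hx
    obtain ⟨_, h5, h6⟩ := hx
    dsimp only at h5 ⊢
    subst h5
    rfl
  · rintro ⟨b, c⟩ _
    rfl
  · rintro ⟨n, b, c⟩ _
    rfl

/-- products vanish at small arguments -/
private lemma Mid_van (f g : ArithmeticFunction ℝ) (a b : ℕ) (hf : ∀ n < a, f n = 0)
    (hg : ∀ n < b, g n = 0) : ∀ n < a * b, (f * g) n = 0 := by
  intro n hn
  rw [ArithmeticFunction.mul_apply]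
  refine sum_eq_zero fun x hx => ?_
  have h1 := (Nat.mem_divisorsAntidiagonal.mp hx).1
  by_cases h2 : x.1 < a
  · rw [hf _ h2, zero_mul]
  · by_cases h3 : x.2 < b
    · rw [hg _ h3, mul_zero]
    · exfalso
      have h4 : a * b ≤ x.1 * x.2 := Nat.mul_le_mul (by omega) (by omega)
      omega

private lemma Mid_S_van (Y : ℕ) (F : ℕ → ℂ) (h : ArithmeticFunction ℝ) (a : ℕ) (hY : Y < a)
    (hh : ∀ n < a, h n = 0) : Mid_S Y F h = 0 := by
  unfold Mid_S
  refine sum_eq_zero fun n hn => ?_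
  rw [mem_Icc] at hn
  rw [hh n (by omega), Complex.ofReal_zero, zero_mul]

private lemma Mid_one (f : ArithmeticFunction ℝ) : ∀ n < 1, f n = 0 := by
  intro n hn
  rw [show n = 0 by omega]
  exact ArithmeticFunction.map_zero

private lemma Mid_zeta (u w : ℕ) (huw : u ≤ w) :
    ((ArithmeticFunction.zeta : ArithmeticFunction ℕ) : ArithmeticFunction ℝ) =
      zt 0 u + zt u w + zB w := by
  ext n
  rw [ArithmeticFunction.add_apply, ArithmeticFunction.add_apply, ArithmeticFunction.natCoe_apply,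
    ArithmeticFunction.zeta_apply]
  change (((if n = 0 then 0 else 1 : ℕ)) : ℝ) = (if 0 < n ∧ n ≤ u then 1 else 0) +
    (if u < n ∧ n ≤ w then 1 else 0) + (if w < n then 1 else 0)
  by_cases h0 : n = 0
  · rw [if_pos h0, if_neg (by omega), if_neg (by omega), if_neg (by omega)]
    simp
  · rw [if_neg h0]
    by_cases h1 : n ≤ u
    · rw [if_pos (by omega), if_neg (by omega), if_neg (by omega)]
      simp
    · by_cases h2 : n ≤ w
      · rw [if_neg (by omega), if_pos (by omega), if_neg (by omega)]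
        simp
      · rw [if_neg (by omega), if_neg (by omega), if_pos (by omega)]
        simp

private lemma Mid_log (u w : ℕ) (huw : u ≤ w) :
    ArithmeticFunction.log = lt 0 u + lt u w + lB w := by
  ext n
  rw [ArithmeticFunction.add_apply, ArithmeticFunction.add_apply, ArithmeticFunction.log_apply]
  change Real.log n = (if 0 < n ∧ n ≤ u then Real.log n else 0) +
    (if u < n ∧ n ≤ w then Real.log n else 0) + (if w < n then Real.log n else 0)
  by_cases h0 : n = 0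
  · rw [if_neg (by omega), if_neg (by omega), if_neg (by omega), h0]
    simp
  · by_cases h1 : n ≤ u
    · rw [if_pos (by omega), if_neg (by omega), if_neg (by omega)]
      simp
    · by_cases h2 : n ≤ w
      · rw [if_neg (by omega), if_pos (by omega), if_neg (by omega)]
        simp
      · rw [if_neg (by omega), if_neg (by omega), if_pos (by omega)]
        simp

/-- the identity in a commutative ring -/
private lemma Mid_ring {A : Type} [CommRing A]
    (a z0 z zb l0 l lb L ζ lg E s2 s3 s4 s5 b2 b3 b4 b5 : A)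
    (hE : E = a * z0 - 1) (hζ : ζ = z0 + z + zb) (hl : lg = l0 + l + lb) (hL : L * ζ = lg)
    (h2 : a ^ 2 = s2 + b2) (h3 : a * s2 = s3 + b3) (h4 : s3 * l0 = s4 + b4)
    (h5 : s2 * l0 = s5 + b5) :
    L = l * (a - a ^ 2 * zb + a ^ 3 * zb ^ 2) +
      (-E) * ((1 - a * zb + a ^ 2 * zb ^ 2) * L) +
      (-z) * ((a - a ^ 2 * zb + a ^ 3 * zb ^ 2) * L) +
      (-b5) * zb + b4 * zb ^ 2 + b3 * (l0 * zb ^ 2) +
      b2 * (a * l0 * zb ^ 2 - l0 * zb - zb * lb) +
      (a * l0 + a * lb - s5 * zb) + (zb * (s4 * zb) - lb * (s2 * zb)) +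
      (a ^ 3 * (zb * zb * lb) - a ^ 3 * L * (zb * zb * zb)) := by
  have h1 : L * (z0 + z + zb) = l0 + l + lb := by rw [← hζ, hL, hl]
  rw [hE]
  linear_combination (a - a ^ 2 * zb + a ^ 3 * zb ^ 2) * h1 +
    (a * l0 * zb ^ 2 - l0 * zb - zb * lb) * h2 + l0 * zb ^ 2 * h3 + zb ^ 2 * h4 - zb * h5

private lemma Mid_cut (u : ℕ) (f : ArithmeticFunction ℝ) : f = sm u f + bg u f := by
  ext n
  rw [ArithmeticFunction.add_apply]
  change f n = (if n ≤ u then f n else 0) + (if n ≤ u then 0 else f n)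
  by_cases h : n ≤ u
  · rw [if_pos h, if_pos h, add_zero]
  · rw [if_neg h, if_neg h, zero_add]

theorem tMid : MidStmt := by
  intro u w Y F hu huw hY
  have hid : ArithmeticFunction.vonMangoldt =
      lt u w * gG u w + (-eE u) * gE u w +
      (-zt u w) * (gG u w * ArithmeticFunction.vonMangoldt) +
      (-bg u (s2 u * lt 0 u)) * zB w + bg u (s3 u * lt 0 u) * zB w ^ 2 +
      bg u (am u * s2 u) * (lt 0 u * zB w ^ 2) +
      bg u (am u ^ 2) * (am u * lt 0 u * zB w ^ 2 - lt 0 u * zB w - zB w * lB w) +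
      (am u * lt 0 u + am u * lB w - s5 u * zB w) +
      (zB w * (s4 u * zB w) - lB w * (s2 u * zB w)) +
      (am u ^ 3 * (zB w * zB w * lB w) -
        am u ^ 3 * ArithmeticFunction.vonMangoldt * (zB w * zB w * zB w)) :=
    Mid_ring (am u) (zt 0 u) (zt u w) (zB w) (lt 0 u) (lt u w) (lB w)
      ArithmeticFunction.vonMangoldt
      ((ArithmeticFunction.zeta : ArithmeticFunction ℕ) : ArithmeticFunction ℝ)
      ArithmeticFunction.log (eE u) (s2 u) (s3 u) (s4 u) (s5 u) (bg u (am u ^ 2))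
      (bg u (am u * s2 u)) (bg u (s3 u * lt 0 u)) (bg u (s2 u * lt 0 u)) rfl
      (Mid_zeta u w huw) (Mid_log u w huw) ArithmeticFunction.vonMangoldt_mul_zeta
      (Mid_cut u (am u ^ 2)) (Mid_cut u (am u * s2 u)) (Mid_cut u (s3 u * lt 0 u))
      (Mid_cut u (s2 u * lt 0 u))
  have hzB : ∀ n < w + 1, zB w n = 0 := by
    intro n hn
    change (if w < n then (1 : ℝ) else 0) = 0
    rw [if_neg (by omega)]
  have hlB : ∀ n < w + 1, lB w n = 0 := by
    intro n hn
    change (if w < n then Real.log n else 0) = 0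
    rw [if_neg (by omega)]
  have hY' : Y < 1 * ((w + 1) * (w + 1) * (w + 1)) := by
    have h1 : 1 * ((w + 1) * (w + 1) * (w + 1)) = (w + 1) ^ 3 := by ring
    omega
  have v1 : Mid_S Y F (am u ^ 3 * (zB w * zB w * lB w)) = 0 :=
    Mid_S_van Y F _ _ hY' (Mid_van _ _ _ _ (Mid_one _)
      (Mid_van _ _ _ _ (Mid_van _ _ _ _ hzB hzB) hlB))
  have v2 : Mid_S Y F (am u ^ 3 * ArithmeticFunction.vonMangoldt * (zB w * zB w * zB w)) = 0 :=
    Mid_S_van Y F _ _ hY' (Mid_van _ _ _ _ (Mid_one _)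
      (Mid_van _ _ _ _ (Mid_van _ _ _ _ hzB hzB) hzB))
  have h2 : ∑ n ∈ Icc 1 Y, ((ArithmeticFunction.vonMangoldt n : ℝ) : ℂ) * F n =
      Mid_S Y F ArithmeticFunction.vonMangoldt := rfl
  have h3 := congrArg (Mid_S Y F) hid
  simp only [Mid_S_add, Mid_S_sub] at h3
  rw [v1, v2, sub_zero, add_zero] at h3
  simp only [Mid_sum] at h3
  rw [h2, h3]
  simp only [Finset.sum_range_succ, Finset.sum_range_zero, zero_add]
  rfl

end Pool.Agent.Lib.NMA
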