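import Pool.Agent.Lib.NMA.Spec

/-! MP_00e23e_nt, Lib/NMA, module Mon: sums with one smooth variable, for one modulus. -/

set_option autoImplicit false

namespace Pool.Agent.Lib.NMA

open Finset Pool.Agent.Lib.EH3 Pool.Agent.Lib.TB Pool.Agent.Results.MP_00e23e_nt Pool.Agent.Lib.MI
open Pool.Agent.Lib.MX (Bd Mz Bd_nonneg Bd_mono rp_le rn_le log_le_T Tau_x)
open Pool.Agent.Lib.NLA (am zt lt zB lB eE gG gE CS BlN)

/-- a sum with at most U nonzero terms -/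
private lemma Mon_cnt (Y U : ℕ) (B : ℝ) (hB : 0 ≤ B) (G : ℕ → ℂ) (h0 : ∀ m ∈ Icc 1 Y, U < m → G m = 0)
    (h1 : ∀ m ∈ Icc 1 Y, m ≤ U → ‖G m‖ ≤ B) : ‖∑ m ∈ Icc 1 Y, G m‖ ≤ U * B := by
  have e1 : ∑ m ∈ Icc 1 Y, G m = ∑ m ∈ (Icc 1 Y).filter (fun m => m ≤ U), G m := by
    rw [sum_filter]
    refine sum_congr rfl fun m hm => ?_
    split_ifs with h
    · rfl
    · exact h0 m hm (not_le.1 h)
  have hc : (((Icc 1 Y).filter (fun m => m ≤ U)).card : ℝ) ≤ U := by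
    have h2 : (Icc 1 Y).filter (fun m => m ≤ U) ⊆ Icc 1 U := by
      intro n hn
      rw [mem_filter, mem_Icc] at hn
      exact mem_Icc.2 ⟨hn.1.1, hn.2⟩
    have h := card_le_card h2
    rw [Nat.card_Icc] at h
    exact_mod_cast (by omega : ((Icc 1 Y).filter (fun m => m ≤ U)).card ≤ U)
  rw [e1]
  calc ‖∑ m ∈ (Icc 1 Y).filter (fun m => m ≤ U), G m‖
      ≤ ∑ m ∈ (Icc 1 Y).filter (fun m => m ≤ U), ‖G m‖ := norm_sum_le _ _
    _ ≤ ∑ m ∈ (Icc 1 Y).filter (fun m => m ≤ U), B := by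
        refine sum_le_sum fun m hm => ?_
        rw [mem_filter] at hm
        exact h1 m hm.1 hm.2
    _ = (((Icc 1 Y).filter (fun m => m ≤ U)).card : ℝ) * B := by rw [sum_const, nsmul_eq_mul]
    _ ≤ U * B := mul_le_mul_of_nonneg_right hc hB

private lemma Mon_split (w N : ℕ) (g : ℕ → ℂ) : ∑ n ∈ Icc 1 N, (if w < n then g n else 0) =
    ∑ n ∈ Icc 1 N, g n - ∑ n ∈ Icc 1 (min w N), g n := by
  rw [← sum_filter, eq_sub_iff_add_eq]
  have h1 : Icc 1 (min w N) = (Icc 1 N).filter (fun n => ¬ w < n) := by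
    ext n
    rw [mem_filter, mem_Icc, mem_Icc, le_min_iff]
    constructor
    · rintro ⟨a, b, c⟩
      exact ⟨⟨a, c⟩, not_lt.2 b⟩
    · rintro ⟨⟨a, c⟩, b⟩
      exact ⟨a, not_lt.1 b, c⟩
  rw [h1, sum_filter_add_sum_filter_not]

theorem tMon (h1 : MI.AtyStmt) : MonStmt := by
  intro X T B u w Y q t a c hT hB0 hY hqX hq htq ha hc0 hcB
  obtain ⟨hT1, hT2, hT3⟩ := hT
  have hT0 : (0 : ℝ) < T := by linarith
  have hq1 : 1 ≤ q := Nat.pos_of_ne_zero hq.ne_zero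
  have hτq : (q.divisors.card : ℝ) ≤ T := hT3 q hq1 hqX
  have hX : ∀ n : ℕ, n ≤ Y → (n : ℝ) ≤ X := fun n hn => le_trans (by exact_mod_cast hn) hY
  have i2 : ∀ m : ℕ, 1 ≤ m → ‖∑ n ∈ Icc 1 (Y / m), ((zB w n : ℝ) : ℂ) * Ek a t q (m * n)‖ ≤ 6 * T := by
    intro m hm
    have e1 : ∑ n ∈ Icc 1 (Y / m), ((zB w n : ℝ) : ℂ) * Ek a t q (m * n) =
        ∑ n ∈ Icc 1 (Y / m), (if w < n then Ek a t q (m * n) else 0) := by
      refine sum_congr rfl fun n _ => ?_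
      unfold zB
      simp only [ArithmeticFunction.coe_mk]
      split_ifs with h
      · simp
      · simp
    rw [e1, Mon_split]
    have k1 := (h1 q t m (Y / m) a hq htq hm ha).1
    have k2 := (h1 q t m (min w (Y / m)) a hq htq hm ha).1
    refine (norm_sub_le _ _).trans ?_
    linarith
  unfold CS
  have hB : (0 : ℝ) ≤ 6 * T * B := by positivity
  have key := Mon_cnt Y u (6 * T * B) hB
    (fun m => ∑ n ∈ Icc 1 (Y / m), ((c m : ℝ) : ℂ) * ((zB w n : ℝ) : ℂ) * Ek a t q (m * n)) ?_ ?_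
  · refine key.trans (le_of_eq ?_)
    ring
  · intro m _ hm
    refine sum_eq_zero fun n _ => ?_
    rw [hc0 m hm]
    simp
  · intro m hm _
    rw [mem_Icc] at hm
    have e1 : ∑ n ∈ Icc 1 (Y / m), ((c m : ℝ) : ℂ) * ((zB w n : ℝ) : ℂ) * Ek a t q (m * n) =
        ((c m : ℝ) : ℂ) * ∑ n ∈ Icc 1 (Y / m), ((zB w n : ℝ) : ℂ) * Ek a t q (m * n) := by
      rw [mul_sum]
      refine sum_congr rfl fun n _ => ?_
      ring
    have b1 : ‖((c m : ℝ) : ℂ)‖ ≤ B := by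
      rw [Complex.norm_real, Real.norm_eq_abs]
      exact hcB m hm.1 (hX m hm.2)
    rw [e1, norm_mul]
    calc ‖((c m : ℝ) : ℂ)‖ * ‖∑ n ∈ Icc 1 (Y / m), ((zB w n : ℝ) : ℂ) * Ek a t q (m * n)‖
        ≤ B * (6 * T) := mul_le_mul b1 (i2 m hm.1) (norm_nonneg _) hB0
      _ = 6 * T * B := by ring

end Pool.Agent.Lib.NMA
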