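import Pool.Agent.Lib.NMA.Spec

/-! MP_00e23e_nt, Lib/NMA, module Mqs: the sums over q. -/

set_option autoImplicit false

namespace Pool.Agent.Lib.NMA

open Finset Pool.Agent.Lib.EH3 Pool.Agent.Lib.TB Pool.Agent.Results.MP_00e23e_nt Pool.Agent.Lib.MI
open Pool.Agent.Lib.MX (Bd Mz Bd_nonneg Bd_mono rp_le rn_le log_le_T Tau_x)
open Pool.Agent.Lib.NLA (am zt lt zB lB eE gG gE CS BlN)

private theorem Mqs_harm (D : ℕ) : ∑ q ∈ Icc 1 D, 1 / (q : ℝ) ≤ 1 + Real.log D := by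
  have h1 := harmonic_le_one_add_log D
  have h2 : ((harmonic D : ℚ) : ℝ) = ∑ q ∈ Icc 1 D, 1 / (q : ℝ) := by
    rw [harmonic_eq_sum_Icc]
    push_cast
    exact sum_congr rfl fun q _ => by rw [one_div]
  rwa [h2] at h1

theorem tMqs : MqsStmt := by
  intro T D F hT _ hF
  obtain ⟨_, hT2, _⟩ := hT
  have hsub : F ⊆ Icc 1 D := fun q hq => mem_Icc.2 (hF q hq)
  refine ⟨?_, ?_⟩
  · calc ∑ q ∈ F, Real.sqrt q ≤ ∑ q ∈ Icc 1 D, Real.sqrt q :=
          sum_le_sum_of_subset_of_nonneg hsub (fun _ _ _ => Real.sqrt_nonneg _)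
      _ ≤ ∑ q ∈ Icc 1 D, Real.sqrt D := sum_le_sum fun q hq =>
          Real.sqrt_le_sqrt (by exact_mod_cast (mem_Icc.1 hq).2)
      _ = D * Real.sqrt D := by
          rw [sum_const, Nat.card_Icc]
          simp
  · calc ∑ q ∈ F, 1 / (q : ℝ) ≤ ∑ q ∈ Icc 1 D, 1 / (q : ℝ) :=
          sum_le_sum_of_subset_of_nonneg hsub (fun _ _ _ => by positivity)
      _ ≤ 1 + Real.log D := Mqs_harm D
      _ ≤ T := hT2

end Pool.Agent.Lib.NMA
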