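import Pool.Agent.Lib.NMA.Spec

set_option autoImplicit false

/-!
MP_00e23e_nt, project NLM, chapter A', module Mtb: box sums of Ek, weights 1 and log.
-/

namespace Pool.Agent.Lib.NMA

open Finset Pool.Agent.Lib.EH3 Pool.Agent.Lib.TB Pool.Agent.Results.MP_00e23e_nt Pool.Agent.Lib.MI
open Pool.Agent.Lib.MX (Bd Mz Bd_nonneg Bd_mono rp_le rn_le log_le_T Tau_x)
open Pool.Agent.Lib.NLA (am zt lt zB lB eE gG gE CS BlN)

/-- Abel summation with the logarithm on an interval -/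
private lemma Mtb_abel (g : ℕ → ℂ) (B : ℝ) (P Q : ℕ) (hPQ : P ≤ Q)
    (hB : ∀ k : ℕ, k ≤ Q → ‖∑ c ∈ Ioc P k, g c‖ ≤ B) :
    ‖∑ c ∈ Ioc P Q, ((Real.log c : ℝ) : ℂ) * g c‖ ≤ 2 * B * Real.log Q := by
  have key : ∀ n : ℕ, P ≤ n → n ≤ Q → ‖∑ c ∈ Ioc P n, ((Real.log c : ℝ) : ℂ) * g c -
      ((Real.log n : ℝ) : ℂ) * ∑ c ∈ Ioc P n, g c‖ ≤ B * Real.log n := by
    intro n hn
    induction n, hn using Nat.le_induction with
    | base =>
      intro _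
      have hB0 : 0 ≤ B := (norm_nonneg _).trans (hB P hPQ)
      have := Real.log_natCast_nonneg P
      simp only [Ioc_self, sum_empty, mul_zero, sub_zero, norm_zero]
      positivity
    | succ n hn ih =>
      intro hnQ
      have ih' := ih (by omega)
      rw [Finset.sum_Ioc_succ_top hn, Finset.sum_Ioc_succ_top hn]
      have hlog : Real.log (n : ℝ) ≤ Real.log ((n + 1 : ℕ) : ℝ) := by
        rcases Nat.eq_zero_or_pos n with h0 | h0
        · subst h0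
          simp
        · have hn0 : (0 : ℝ) < n := by exact_mod_cast h0
          exact Real.log_le_log hn0 (by push_cast; linarith)
      have e1 : ∑ c ∈ Ioc P n, ((Real.log c : ℝ) : ℂ) * g c +
          ((Real.log ((n + 1 : ℕ) : ℝ) : ℝ) : ℂ) * g (n + 1) -
          ((Real.log ((n + 1 : ℕ) : ℝ) : ℝ) : ℂ) * (∑ c ∈ Ioc P n, g c + g (n + 1)) =
          (∑ c ∈ Ioc P n, ((Real.log c : ℝ) : ℂ) * g c -
            ((Real.log (n : ℝ) : ℝ) : ℂ) * ∑ c ∈ Ioc P n, g c) -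
          ((Real.log ((n + 1 : ℕ) : ℝ) - Real.log (n : ℝ) : ℝ) : ℂ) * ∑ c ∈ Ioc P n, g c := by
        push_cast
        ring
      rw [e1]
      refine (norm_sub_le _ _).trans ?_
      have e2 : ‖((Real.log ((n + 1 : ℕ) : ℝ) - Real.log (n : ℝ) : ℝ) : ℂ) * ∑ c ∈ Ioc P n, g c‖ ≤
          (Real.log ((n + 1 : ℕ) : ℝ) - Real.log (n : ℝ)) * B := by
        rw [norm_mul, Complex.norm_real, Real.norm_eq_abs, abs_of_nonneg (by linarith)]
        exact mul_le_mul_of_nonneg_left (hB n (by omega)) (by linarith)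
      linarith
  have hk := key Q hPQ le_rfl
  have hX0 : 0 ≤ Real.log (Q : ℝ) := Real.log_natCast_nonneg Q
  have e3 : ‖((Real.log Q : ℝ) : ℂ) * ∑ c ∈ Ioc P Q, g c‖ ≤ Real.log Q * B := by
    rw [norm_mul, Complex.norm_real, Real.norm_eq_abs, abs_of_nonneg hX0]
    exact mul_le_mul_of_nonneg_left (hB Q le_rfl) hX0
  have e4 := norm_add_le (∑ c ∈ Ioc P Q, ((Real.log c : ℝ) : ℂ) * g c -
      ((Real.log Q : ℝ) : ℂ) * ∑ c ∈ Ioc P Q, g c) (((Real.log Q : ℝ) : ℂ) * ∑ c ∈ Ioc P Q, g c)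
  rw [sub_add_cancel] at e4
  linarith

/-- the first bound -/
private lemma Mtb_one (h1 : SLN.I2kStmt) (X T : ℝ) (q t d P1 Q1 P2 Q2 : ℕ) (a : ℤ)
    (hT : Tau X T) (hq : Squarefree q) (hqX : (q : ℝ) ≤ X) (ht : t ∣ q) (ha : Int.gcd a q = 1)
    (hPQ : P2 ≤ Q2) :
    ‖∑ c1 ∈ Ioc P1 Q1, ∑ c2 ∈ Ioc P2 Q2, Ek a t q (d * (c1 * c2))‖ ≤
    6 * T ^ 5 * (Real.sqrt q + (Q1 : ℝ) / q) := by
  have hT1 : 1 ≤ T := hT.1
  have hT0 : (0 : ℝ) ≤ T := by linarith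
  rcases le_or_gt Q1 P1 with h | h
  · rw [Finset.Ioc_eq_empty (by omega), Finset.sum_empty, norm_zero]
    positivity
  refine (h1 X T t q d P1 Q1 P2 Q2 a hT hq hqX ht ha h.le hPQ).trans ?_
  have h2 : (Q1 : ℝ) - P1 ≤ Q1 := by
    have : (0 : ℝ) ≤ (P1 : ℝ) := Nat.cast_nonneg _
    linarith
  gcongr

theorem tMtb (h1 : SLN.I2kStmt) : MtbStmt := by
  intro X T q t d P1 Q1 P2 Q2 a hT hq hqX ht ha hQX hPQ
  have hT1 : 1 ≤ T := hT.1
  have hT0 : (0 : ℝ) ≤ T := by linarith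
  refine ⟨Mtb_one h1 X T q t d P1 Q1 P2 Q2 a hT hq hqX ht ha hPQ, ?_⟩
  rcases le_or_gt Q1 P1 with h | h
  · rw [Finset.Ioc_eq_empty (by omega), Finset.sum_empty, norm_zero]
    positivity
  have h3 := Mtb_abel (fun c1 => ∑ c2 ∈ Ioc P2 Q2, Ek a t q (d * (c1 * c2)))
    (6 * T ^ 5 * (Real.sqrt q + (Q1 : ℝ) / q)) P1 Q1 h.le (by
      intro k hk
      refine (Mtb_one h1 X T q t d P1 k P2 Q2 a hT hq hqX ht ha hPQ).trans ?_
      have hk' : (k : ℝ) ≤ Q1 := by exact_mod_cast hk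
      gcongr)
  refine h3.trans ?_
  have hlog : Real.log Q1 ≤ T := by
    have h4 : (0 : ℝ) < Q1 := by
      have : 0 < Q1 := by omega
      exact_mod_cast this
    have h5 := Real.log_le_log h4 hQX
    have h6 := hT.2.1
    linarith
  have e1 : 12 * T ^ 6 * (Real.sqrt q + (Q1 : ℝ) / q) =
      2 * (6 * T ^ 5 * (Real.sqrt q + (Q1 : ℝ) / q)) * T := by ring
  rw [e1]
  gcongr

end Pool.Agent.Lib.NMA
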