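import Pool.Agent.Lib.NMA.Spec

/-!
MP_00e23e_nt, directory Lib/NMA, module Mtw (the model is Lib/NLA/Atw, helper41): two smooth variables, all q.
-/

set_option autoImplicit false

namespace Pool.Agent.Lib.NMA

open Finset Pool.Agent.Lib.EH3 Pool.Agent.Lib.TB Pool.Agent.Results.MP_00e23e_nt Pool.Agent.Lib.MI
open Pool.Agent.Lib.MX (Bd Mz Bd_nonneg Bd_mono rp_le rn_le log_le_T Tau_x)
open Pool.Agent.Lib.NLA (am zt lt zB lB eE gG gE CS BlN)

/-- the weight of the first variable -/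
private noncomputable def Mtw_a (w Y om : ℕ) (T : ℝ) : ℕ → ℂ :=
  fun m => if w < m ∧ m ≤ Y then (((if om = 0 then 1 else Real.log m / T : ℝ)) : ℂ) else 0

/-- the weight of the second variable -/
private noncomputable def Mtw_b (w U Y : ℕ) (T : ℝ) (e : ℕ → ℝ) : ℕ → ℂ :=
  fun n => if n ≤ Y then (((∑ d ∈ n.divisors.filter (fun d => d ≤ U ∧ w < n / d), e d) / T : ℝ) : ℂ) else 0

private lemma Mtw_an {x T : ℝ} {w Y om : ℕ} (hT : Tau x T) (hYx : (Y : ℝ) ≤ x) (m : ℕ) :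
    ‖Mtw_a w Y om T m‖ ≤ 1 := by
  have hT1 : 1 ≤ T := hT.1
  unfold Mtw_a
  by_cases h : w < m ∧ m ≤ Y
  · rw [if_pos h, Complex.norm_real, Real.norm_eq_abs]
    by_cases ho : om = 0
    · rw [if_pos ho]
      simp
    · rw [if_neg ho]
      have hm1 : (1 : ℝ) ≤ m := by
        have : 1 ≤ m := by omega
        exact_mod_cast this
      have hmx : (m : ℝ) ≤ x := by
        have : (m : ℝ) ≤ Y := by exact_mod_cast h.2
        linarith
      have h0 : 0 ≤ Real.log m := Real.log_nonneg hm1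
      have h1 : Real.log m ≤ Real.log x := Real.log_le_log (by linarith) hmx
      have h2 := hT.2.1
      rw [abs_of_nonneg (div_nonneg h0 (by linarith)), div_le_one (by linarith)]
      linarith
  · rw [if_neg h]
    simp

private lemma Mtw_bn {x T : ℝ} {w U Y : ℕ} {e : ℕ → ℝ} (hT : Tau x T) (hYx : (Y : ℝ) ≤ x) (he : ∀ d, |e d| ≤ 1) (n : ℕ) :
    ‖Mtw_b w U Y T e n‖ ≤ 1 := by
  have hT1 : 1 ≤ T := hT.1
  unfold Mtw_b
  by_cases h : n ≤ Y
  · rw [if_pos h, Complex.norm_real, Real.norm_eq_abs, abs_div, abs_of_nonneg (by linarith : (0 : ℝ) ≤ T),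
      div_le_one (by linarith)]
    rcases Nat.eq_zero_or_pos n with hn | hn
    · subst hn
      simp
      linarith
    · have hnx : (n : ℝ) ≤ x := by
        have : (n : ℝ) ≤ Y := by exact_mod_cast h
        linarith
      have h1 := hT.2.2 n hn hnx
      refine (Finset.abs_sum_le_sum_abs _ _).trans ?_
      refine (Finset.sum_le_sum (fun d _ => he d)).trans ?_
      rw [Finset.sum_const, nsmul_eq_mul, mul_one]
      have h2 : (n.divisors.filter (fun d => d ≤ U ∧ w < n / d)).card ≤ n.divisors.card :=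
        Finset.card_le_card (Finset.filter_subset _ _)
      have h3 : ((n.divisors.filter (fun d => d ≤ U ∧ w < n / d)).card : ℝ) ≤ n.divisors.card := by exact_mod_cast h2
      exact h3.trans h1
  · rw [if_neg h]
    simp

/-- the factor T² -/
private lemma Mtw_fac {T : ℝ} (hT1 : 1 ≤ T) (w U Y om : ℕ) (e : ℕ → ℝ) (F : ℕ → ℂ) :
    ‖∑ m ∈ Icc 1 Y, ∑ n ∈ Icc 1 (Y / m),
      (if w < m then (((if om = 0 then 1 else Real.log m : ℝ)) : ℂ) else 0) *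
      ((∑ d ∈ n.divisors.filter (fun d => d ≤ U ∧ w < n / d), e d : ℝ) : ℂ) * F (m * n)‖ ≤
    T ^ 2 * ‖∑ m ∈ Icc 1 Y, ∑ n ∈ Icc 1 (Y / m), Mtw_a w Y om T m * Mtw_b w U Y T e n * F (m * n)‖ := by
  have hTpos : 0 < T := by linarith
  have hTne : (T : ℂ) ≠ 0 := by
    exact_mod_cast hTpos.ne'
  obtain ⟨c, hc⟩ : ∃ c : ℝ, c = (if om = 0 then 1 else T) := ⟨_, rfl⟩
  have hc0 : 0 ≤ c := by
    rw [hc]; split_ifs <;> linarith
  have hcT : c ≤ T := by
    rw [hc]; split_ifs <;> linarith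
  have key : ∑ m ∈ Icc 1 Y, ∑ n ∈ Icc 1 (Y / m),
      (if w < m then (((if om = 0 then 1 else Real.log m : ℝ)) : ℂ) else 0) *
      ((∑ d ∈ n.divisors.filter (fun d => d ≤ U ∧ w < n / d), e d : ℝ) : ℂ) * F (m * n) =
      ((c * T : ℝ) : ℂ) * ∑ m ∈ Icc 1 Y, ∑ n ∈ Icc 1 (Y / m), Mtw_a w Y om T m * Mtw_b w U Y T e n * F (m * n) := by
    rw [Finset.mul_sum]
    apply Finset.sum_congr rfl
    intro m hm
    rw [Finset.mul_sum]
    apply Finset.sum_congr rfl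
    intro n hn
    have hmY : m ≤ Y := (Finset.mem_Icc.1 hm).2
    have hnY : n ≤ Y := (Finset.mem_Icc.1 hn).2.trans (Nat.div_le_self _ _)
    unfold Mtw_a Mtw_b
    rw [if_pos hnY]
    by_cases hw : w < m
    · rw [if_pos hw, if_pos (show w < m ∧ m ≤ Y from ⟨hw, hmY⟩)]
      by_cases ho : om = 0
      · rw [hc, if_pos ho, if_pos ho, if_pos ho]
        push_cast
        field_simp
      · rw [hc, if_neg ho, if_neg ho, if_neg ho]
        push_cast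
        field_simp
    · rw [if_neg hw, if_neg (show ¬(w < m ∧ m ≤ Y) from fun h => hw h.1)]
      simp
  rw [key, norm_mul, Complex.norm_real, Real.norm_eq_abs, abs_of_nonneg (mul_nonneg hc0 hTpos.le)]
  apply mul_le_mul_of_nonneg_right _ (norm_nonneg _)
  nlinarith

/-- the number of the cells -/
private lemma Mtw_cells (I : ℕ) (P : ℕ → ℕ → Prop) [∀ i j, Decidable (P i j)]
    (v : ℕ → ℕ → ℝ) (B : ℝ) (hB : 0 ≤ B) (h : ∀ i j, P i j → v i j ≤ B) :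
    ∑ i ∈ range I, ∑ j ∈ range I, (if P i j then v i j else 0) ≤ (I : ℝ) ^ 2 * B := by
  have h2 : ∀ i ∈ range I, ∑ j ∈ range I, (if P i j then v i j else 0) ≤ (I : ℝ) * B := by
    intro i _
    have h3 : ∀ j ∈ range I, (if P i j then v i j else 0) ≤ B := by
      intro j _
      by_cases hP : P i j
      · rw [if_pos hP]
        exact h i j hP
      · rw [if_neg hP]
        exact hB
    have h4 := Finset.sum_le_sum h3
    rw [Finset.sum_const, Finset.card_range, nsmul_eq_mul] at h4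
    exact h4
  have h5 := Finset.sum_le_sum h2
  rw [Finset.sum_const, Finset.card_range, nsmul_eq_mul] at h5
  have h6 : (I : ℝ) ^ 2 * B = (I : ℝ) * ((I : ℝ) * B) := by ring
  rw [h6]
  exact h5

/-- the powers of x -/
private lemma Mtw_pow {α τ ν θ ε x : ℝ} (hP : ParAM α τ ν θ ε) (hx1 : 1 ≤ x) {T r : ℝ} (hT : 1 ≤ T) {D U : ℕ}
    (hD : (D : ℝ) ≤ x ^ α) (hU : (U : ℝ) ≤ x ^ ν) (hr0 : 0 ≤ r) (hr : r ≤ 2 * x ^ (1 - θ)) :
    12 * T ^ 5 * U * (D * Real.sqrt D + r * T) ≤ 36 * T ^ 6 * x ^ (1 - 3 * ε) := by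
  obtain ⟨⟨hε, hε1, hτ, hα, hα1⟩, ⟨hν, hνθ, hθ, hθε⟩, hc1, hc2⟩ := hP
  have hxpos : 0 < x := by linarith
  obtain ⟨y, hy⟩ : ∃ y, y = x ^ (1 - 3 * ε) := ⟨_, rfl⟩
  have hypos : 0 < y := by rw [hy]; exact Real.rpow_pos_of_pos hxpos _
  have hsq : Real.sqrt D ≤ x ^ (α / 2) := by
    have h1 : x ^ (α / 2) = Real.sqrt (x ^ α) := by
      rw [Real.sqrt_eq_rpow, ← Real.rpow_mul hxpos.le]
      congr 1
      ring
    rw [h1]
    exact Real.sqrt_le_sqrt hD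
  have hs0 : 0 ≤ Real.sqrt D := Real.sqrt_nonneg _
  have hD0 : (0 : ℝ) ≤ D := Nat.cast_nonneg _
  have hU0 : (0 : ℝ) ≤ U := Nat.cast_nonneg _
  have p1 : 0 < x ^ ν := Real.rpow_pos_of_pos hxpos _
  have p2 : 0 < x ^ α := Real.rpow_pos_of_pos hxpos _
  have p4 : 0 < x ^ (1 - θ) := Real.rpow_pos_of_pos hxpos _
  have t1 : (U : ℝ) * (D * Real.sqrt D) ≤ y := by
    have h1 : (U : ℝ) * (D * Real.sqrt D) ≤ x ^ ν * (x ^ α * x ^ (α / 2)) :=
      mul_le_mul hU (mul_le_mul hD hsq hs0 p2.le) (mul_nonneg hD0 hs0) p1.le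
    have h2 : x ^ ν * (x ^ α * x ^ (α / 2)) = x ^ (ν + (α + α / 2)) := by
      rw [← Real.rpow_add hxpos, ← Real.rpow_add hxpos]
    rw [h2] at h1
    refine h1.trans ?_
    rw [hy]
    exact Real.rpow_le_rpow_of_exponent_le hx1 (by linarith)
  have t2 : (U : ℝ) * r ≤ 2 * y := by
    have h1 : (U : ℝ) * r ≤ x ^ ν * (2 * x ^ (1 - θ)) := mul_le_mul hU hr hr0 p1.le
    have h2 : x ^ ν * (2 * x ^ (1 - θ)) = 2 * x ^ (ν + (1 - θ)) := by
      rw [Real.rpow_add hxpos]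
      ring
    rw [h2] at h1
    refine h1.trans ?_
    rw [hy]
    exact mul_le_mul_of_nonneg_left (Real.rpow_le_rpow_of_exponent_le hx1 (by linarith)) (by norm_num)
  have hT56 : T ^ 5 ≤ T ^ 6 := pow_le_pow_right₀ hT (by norm_num)
  have e1 : 12 * T ^ 5 * U * (D * Real.sqrt D + r * T) =
      12 * T ^ 5 * ((U : ℝ) * (D * Real.sqrt D)) + 12 * T ^ 6 * ((U : ℝ) * r) := by ring
  rw [e1, ← hy]
  have a1 : 12 * T ^ 5 * ((U : ℝ) * (D * Real.sqrt D)) ≤ 12 * T ^ 5 * y := mul_le_mul_of_nonneg_left t1 (by positivity)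
  have a2 : 12 * T ^ 6 * ((U : ℝ) * r) ≤ 12 * T ^ 6 * (2 * y) := mul_le_mul_of_nonneg_left t2 (by positivity)
  have a4 : T ^ 5 * y ≤ T ^ 6 * y := mul_le_mul_of_nonneg_right hT56 hypos.le
  linarith

theorem tMtw (h1 : MI.AclStmt) (h2 : MK.AtrStmt) (h3 : McgStmt) (h4 : MqsStmt) : MtwStmt := by
  intro α τ ν θ ε hP
  have hP' := hP
  obtain ⟨⟨hε, hε1, hτ, hα, hα1⟩, ⟨hν, hνθ, hθ, hθε⟩, hc1, hc2⟩ := hP'
  obtain ⟨η, hηdef⟩ : ∃ η, η = ε / 4 := ⟨_, rfl⟩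
  have hη : 0 < η := by rw [hηdef]; linarith
  have hηb : 4 * η ≤ ε := by rw [hηdef]; linarith
  refine ⟨η, 1320, 3, 10, hη, by norm_num, le_refl _, ?_⟩
  intro x T z a Y U om e F t hx3 hTx hz hzx hYx hU he hF
  have hxpos : 0 < x := by linarith
  have hx1' : 1 ≤ x := by linarith
  have hT : Tau x T := Tau_x hx1' hTx
  have hT1 : 1 ≤ T := hT.1
  have hlogT : Real.log x ≤ T - 1 := by
    have := log_le_T hx1' hTx
    linarith
  obtain ⟨w, hw⟩ : ∃ w, w = ⌊x ^ θ⌋₊ := ⟨_, rfl⟩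
  rw [← hw]
  rcases Nat.eq_zero_or_pos Y with hY0 | hY0
  · subst hY0
    have : ∑ q ∈ F, ‖∑ m ∈ Icc 1 0, ∑ n ∈ Icc 1 (0 / m),
      (if w < m then (((if om = 0 then 1 else Real.log m : ℝ)) : ℂ) else 0) *
      ((∑ d ∈ n.divisors.filter (fun d => d ≤ U ∧ w < n / d), e d : ℝ) : ℂ) * Ek (a q) (t q) q (m * n)‖ = 0 := by
      apply Finset.sum_eq_zero
      intro q _
      simp
    rw [this]
    exact Bd_nonneg (by norm_num) hT1 hxpos.le hz
  have hY1 : (1 : ℝ) ≤ Y := by exact_mod_cast hY0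
  have hlogY : Real.log Y ≤ Real.log x := Real.log_le_log (by linarith) hYx
  have hlogx : 0 ≤ Real.log x := Real.log_nonneg hx1'
  -- W
  obtain ⟨W, hW⟩ : ∃ W, W = z ^ η := ⟨_, rfl⟩
  have hW1 : 1 ≤ W := by rw [hW]; exact Real.one_le_rpow hz hη.le
  have hWpos : 0 < W := by linarith
  have hzpos : 0 < z := by linarith
  have hWx : W ≤ x := by
    rw [hW]
    calc z ^ η ≤ z ^ (1 : ℝ) := Real.rpow_le_rpow_of_exponent_le hz (by linarith)
      _ = z := Real.rpow_one z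
      _ ≤ x := hzx
  have hpow : ∀ μ : ℝ, η ≤ μ → x ^ (1 - μ) ≤ x / W := by
    intro μ hμ
    refine (rp_le hz hzx (hη.le.trans hμ)).trans ?_
    rw [hW]
    exact div_le_div_of_nonneg_left hxpos.le (Real.rpow_pos_of_pos hzpos _)
      (Real.rpow_le_rpow_of_exponent_le hz hμ)
  -- K
  obtain ⟨K, hKdef⟩ : ∃ K, K = ⌈W⌉₊ + 3 := ⟨_, rfl⟩
  have hKlow : W ≤ K := by
    rw [hKdef]
    push_cast
    have := Nat.le_ceil W
    linarith
  have hKup : (K : ℝ) < W + 4 := by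
    rw [hKdef]
    push_cast
    have := Nat.ceil_lt_add_one hWpos.le
    linarith
  have hK4 : 4 ≤ K := by
    have : 0 < ⌈W⌉₊ := Nat.ceil_pos.2 hWpos
    omega
  have hK4' : (4 : ℝ) ≤ K := by exact_mod_cast hK4
  have hKpos : (0 : ℝ) < K := by linarith
  -- I
  obtain ⟨I, hIdef⟩ : ∃ I, I = ⌊(K : ℝ) * Real.log x⌋₊ + 1 := ⟨_, rfl⟩
  have hIlow : (K : ℝ) * Real.log Y < I := by
    have h1 : (K : ℝ) * Real.log x < I := by
      rw [hIdef]
      push_cast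
      exact Nat.lt_floor_add_one _
    have h2 : (K : ℝ) * Real.log Y ≤ K * Real.log x := mul_le_mul_of_nonneg_left hlogY hKpos.le
    linarith
  have hIup : (I : ℝ) ≤ K * Real.log x + 1 := by
    rw [hIdef]
    push_cast
    have := Nat.floor_le (mul_nonneg hKpos.le hlogx)
    linarith
  -- D
  obtain ⟨D, hDdef⟩ : ∃ D, D = ⌊x ^ α⌋₊ := ⟨_, rfl⟩
  have hxα : 1 ≤ x ^ α := Real.one_le_rpow hx1' hα
  have hD1 : 1 ≤ D := by
    rw [hDdef]
    exact Nat.le_floor (by exact_mod_cast hxα)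
  have hDup : (D : ℝ) ≤ x ^ α := by
    rw [hDdef]
    exact Nat.floor_le (by linarith)
  have hD35 : (D : ℝ) ≤ x ^ ((3 : ℝ) / 5) := hDup.trans (Real.rpow_le_rpow_of_exponent_le hx1' hα1)
  have hDx : (D : ℝ) ≤ x := by
    refine hD35.trans ?_
    have := Real.rpow_le_rpow_of_exponent_le hx1' (show (3 : ℝ) / 5 ≤ 1 by norm_num)
    rwa [Real.rpow_one] at this
  -- w
  have hxθ : 1 ≤ x ^ θ := Real.one_le_rpow hx1' (by linarith)
  have hw1 : 1 ≤ w := by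
    rw [hw]
    exact Nat.le_floor (by exact_mod_cast hxθ)
  have hw1' : (1 : ℝ) ≤ w := by exact_mod_cast hw1
  have hwlow : x ^ θ ≤ 2 * w := by
    have : x ^ θ < w + 1 := by
      rw [hw]
      exact Nat.lt_floor_add_one _
    linarith
  obtain ⟨r, hrdef⟩ : ∃ r, r = (Y : ℝ) / w := ⟨_, rfl⟩
  have hr0 : 0 ≤ r := by rw [hrdef]; positivity
  have hr : r ≤ 2 * x ^ (1 - θ) := by
    rw [hrdef, div_le_iff₀ (by linarith)]
    have h5 : x ^ (1 - θ) * x ^ θ = x := by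
      rw [← Real.rpow_add hxpos]
      have : 1 - θ + θ = 1 := by ring
      rw [this, Real.rpow_one]
    have h6 : 0 < x ^ (1 - θ) := Real.rpow_pos_of_pos hxpos _
    have h7 : x ^ (1 - θ) * x ^ θ ≤ x ^ (1 - θ) * (2 * w) := mul_le_mul_of_nonneg_left hwlow h6.le
    rw [h5] at h7
    linarith
  have hFD : ∀ q ∈ F, Squarefree q ∧ t q ∣ q ∧ q ≤ D := by
    intro q hq
    obtain ⟨hM, _⟩ := hF q hq
    refine ⟨hM.1, hM.2.1, ?_⟩
    rw [hDdef]
    exact Nat.le_floor hM.2.2.1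
  have hFU : ∀ q ∈ F, 1 ≤ q ∧ q ≤ D := by
    intro q hq
    obtain ⟨hM, _⟩ := hF q hq
    exact ⟨Nat.pos_of_ne_zero hM.1.ne_zero, (hFD q hq).2.2⟩
  have hTD : Tau D T := by
    refine ⟨hT1, ?_, fun n hn hnD => hT.2.2 n hn (hnD.trans hDx)⟩
    have h5 : Real.log D ≤ Real.log x := Real.log_le_log (by exact_mod_cast hD1) hDx
    linarith
  have hA := h2 x T D K 0 Y a F t hT hD1 hDx hYx hY0 (by omega) hFD
  have hαn : ∀ m, ‖Mtw_a w Y om T m‖ ≤ 1 := Mtw_an hT hYx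
  have hβn : ∀ n, ‖Mtw_b w U Y T e n‖ ≤ 1 := Mtw_bn hT hYx he
  have hB : ∀ q, ‖∑ m ∈ Icc 1 Y, ∑ n ∈ Icc 1 (Y / m), Mtw_a w Y om T m * Mtw_b w U Y T e n *
      Ek (a q) (t q) q (m * n)‖ ≤
      (∑ i ∈ range I, ∑ j ∈ range I, if 0 ≤ i + j ∧ ((i : ℝ) + j + 2) ≤ K * Real.log Y then
        ‖∑ m ∈ Icc 1 Y, ∑ n ∈ Icc 1 Y, cl K i (Mtw_a w Y om T) m * cl K j (Mtw_b w U Y T e) n *
          Ek (a q) (t q) q (m * n)‖ else 0) +
      ∑ k ∈ (Icc 1 Y).filter (fun k : ℕ => (K : ℝ) * Real.log k < (0 : ℕ) + 1 ∨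
          (K : ℝ) * Real.log Y - 2 < K * Real.log k),
        (k.divisors.card : ℝ) * ‖Ek (a q) (t q) q k‖ := fun q =>
    h1 K 0 Y I (Mtw_a w Y om T) (Mtw_b w U Y T e) (Ek (a q) (t q) q) (by omega) hIlow hαn hβn
  -- the good cells, one q
  have hG : ∀ q ∈ F, (∑ i ∈ range I, ∑ j ∈ range I, if 0 ≤ i + j ∧ ((i : ℝ) + j + 2) ≤ K * Real.log Y then
        ‖∑ m ∈ Icc 1 Y, ∑ n ∈ Icc 1 Y, cl K i (Mtw_a w Y om T) m * cl K j (Mtw_b w U Y T e) n *
          Ek (a q) (t q) q (m * n)‖ else 0) ≤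
      (I : ℝ) ^ 2 * (12 * T ^ 5 * U * (Real.sqrt q + (Y : ℝ) / w / q)) := by
    intro q hq
    apply Mtw_cells I (fun i j => 0 ≤ i + j ∧ ((i : ℝ) + j + 2) ≤ K * Real.log Y)
      (fun i j => ‖∑ m ∈ Icc 1 Y, ∑ n ∈ Icc 1 Y, cl K i (Mtw_a w Y om T) m * cl K j (Mtw_b w U Y T e) n *
          Ek (a q) (t q) q (m * n)‖)
    · positivity
    · intro i j hij
      have hqx : (q : ℝ) ≤ x := by
        have : (q : ℝ) ≤ D := by exact_mod_cast (hFD q hq).2.2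
        linarith
      exact h3 x T q (t q) w U Y K i j om (a q) e hT (hFD q hq).1 hqx (hFD q hq).2.1 (hF q hq).2 hYx (by omega) hw1 he hij.2
  obtain ⟨s1, s2⟩ := h4 T D F hTD hD1 hFU
  have hgood : ∑ q ∈ F, (12 * T ^ 5 * U * (Real.sqrt q + (Y : ℝ) / w / q)) ≤ 36 * T ^ 6 * x ^ (1 - 3 * ε) := by
    have e1 : ∑ q ∈ F, (12 * T ^ 5 * U * (Real.sqrt q + (Y : ℝ) / w / q)) =
        12 * T ^ 5 * U * (∑ q ∈ F, Real.sqrt q + r * ∑ q ∈ F, 1 / (q : ℝ)) := by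
      have d1 : ∀ q ∈ F, (Real.sqrt q + (Y : ℝ) / w / q) = Real.sqrt q + r * (1 / (q : ℝ)) := by
        intro q _
        rw [hrdef, mul_one_div]
      rw [← Finset.mul_sum, Finset.sum_congr rfl d1, Finset.sum_add_distrib, ← Finset.mul_sum]
    rw [e1]
    have hU0 : (0 : ℝ) ≤ U := Nat.cast_nonneg _
    have e2 : ∑ q ∈ F, Real.sqrt q + r * ∑ q ∈ F, 1 / (q : ℝ) ≤ D * Real.sqrt D + r * T := by
      have b1 := mul_le_mul_of_nonneg_left s2 hr0
      linarith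
    exact (mul_le_mul_of_nonneg_left e2 (by positivity)).trans (Mtw_pow hP hx1' hT1 hDup hU hr0 hr)
  -- the bound
  obtain ⟨p, hp⟩ : ∃ p, p = x / W := ⟨_, rfl⟩
  have hppos : 0 < p := by rw [hp]; positivity
  have hI2 : (I : ℝ) ≤ 6 * W * T := by
    have h1 : (K : ℝ) * Real.log x ≤ (5 * W) * (T - 1) :=
      mul_le_mul (by linarith) hlogT hlogx (by positivity)
    have h2 : (5 * W) * (T - 1) = 5 * (W * T) - 5 * W := by ring
    have h3 : 0 ≤ W * T := by positivity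
    have h4 : 6 * W * T = 6 * (W * T) := by ring
    rw [h4]
    linarith
  have hgood2 : (I : ℝ) ^ 2 * (36 * T ^ 6 * x ^ (1 - 3 * ε)) ≤ 1296 * (T ^ 8 * p) := by
    have h1 : (I : ℝ) ^ 2 ≤ (6 * W * T) ^ 2 := pow_le_pow_left₀ (by positivity) hI2 2
    have hW3 : W ^ 3 ≤ z ^ (3 * ε) := by
      have : W ^ 3 = z ^ (3 * η) := by
        rw [hW, ← Real.rpow_natCast, ← Real.rpow_mul hzpos.le]
        congr 1
        push_cast
        ring
      rw [this]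
      exact Real.rpow_le_rpow_of_exponent_le hz (by linarith)
    have h2 : x ^ (1 - 3 * ε) ≤ x / W ^ 3 :=
      (rp_le hz hzx (by linarith)).trans (div_le_div_of_nonneg_left hxpos.le (by positivity) hW3)
    have h3 : 36 * T ^ 6 * x ^ (1 - 3 * ε) ≤ 36 * T ^ 6 * (x / W ^ 3) := mul_le_mul_of_nonneg_left h2 (by positivity)
    have h4 : (I : ℝ) ^ 2 * (36 * T ^ 6 * x ^ (1 - 3 * ε)) ≤ (6 * W * T) ^ 2 * (36 * T ^ 6 * (x / W ^ 3)) :=
      mul_le_mul h1 h3 (by positivity) (by positivity)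
    have h5 : (6 * W * T) ^ 2 * (36 * T ^ 6 * (x / W ^ 3)) = 1296 * (T ^ 8 * p) := by
      rw [hp]
      field_simp
      ring
    rw [h5] at h4
    exact h4
  have hrest : 4 * T ^ 3 * (Real.exp ((((0 : ℕ) : ℝ) + 1) / K) + (Y : ℝ) / K + 1 + D) ≤ 24 * (T ^ 8 * p) := by
    have e3 : 1 ≤ p := by
      rw [hp, le_div_iff₀ hWpos, one_mul]
      exact hWx
    have e1 : Real.exp ((((0 : ℕ) : ℝ) + 1) / K) ≤ 3 * p := by
      have h1 : (((0 : ℕ) : ℝ) + 1) / K ≤ 1 := by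
        rw [div_le_one hKpos]
        push_cast
        linarith
      have h2 := Real.exp_le_exp.2 h1
      have h3 := Real.exp_one_lt_d9
      have h4 : (2.7182818286 : ℝ) ≤ 3 := by norm_num
      linarith
    have e2 : (Y : ℝ) / K ≤ p := by
      rw [hp, div_le_div_iff₀ hKpos hWpos]
      exact mul_le_mul hYx hKlow hWpos.le hxpos.le
    have e4 : (D : ℝ) ≤ p := by
      refine hD35.trans ?_
      rw [hp]
      have h := hpow (2 / 5) (by linarith)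
      have : (1 : ℝ) - 2 / 5 = 3 / 5 := by norm_num
      rwa [this] at h
    have h6 : T ^ 3 ≤ T ^ 8 := pow_le_pow_right₀ hT1 (by norm_num)
    calc 4 * T ^ 3 * (Real.exp ((((0 : ℕ) : ℝ) + 1) / K) + (Y : ℝ) / K + 1 + D)
        ≤ 4 * T ^ 3 * (6 * p) := mul_le_mul_of_nonneg_left (by linarith) (by positivity)
      _ = 24 * (T ^ 3 * p) := by ring
      _ ≤ 24 * (T ^ 8 * p) := by
        apply mul_le_mul_of_nonneg_left (mul_le_mul_of_nonneg_right h6 hppos.le) (by norm_num)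
  have hall : ∑ q ∈ F, ‖∑ m ∈ Icc 1 Y, ∑ n ∈ Icc 1 (Y / m), Mtw_a w Y om T m * Mtw_b w U Y T e n *
      Ek (a q) (t q) q (m * n)‖ ≤ 1320 * (T ^ 8 * p) := by
    refine (Finset.sum_le_sum (fun q _ => hB q)).trans ?_
    rw [Finset.sum_add_distrib]
    have c1 : ∑ q ∈ F, (∑ i ∈ range I, ∑ j ∈ range I, if 0 ≤ i + j ∧ ((i : ℝ) + j + 2) ≤ K * Real.log Y then
        ‖∑ m ∈ Icc 1 Y, ∑ n ∈ Icc 1 Y, cl K i (Mtw_a w Y om T) m * cl K j (Mtw_b w U Y T e) n *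
          Ek (a q) (t q) q (m * n)‖ else 0) ≤ 1296 * (T ^ 8 * p) := by
      refine (Finset.sum_le_sum hG).trans ?_
      rw [← Finset.mul_sum]
      exact (mul_le_mul_of_nonneg_left hgood (by positivity)).trans hgood2
    have c2 := hA.trans hrest
    refine (add_le_add c1 c2).trans (le_of_eq ?_)
    ring
  have hfin : Bd 1320 10 η x T z = T ^ 2 * (1320 * (T ^ 8 * p)) := by
    unfold MX.Bd
    rw [hp, hW]
    ring
  rw [hfin]
  refine (Finset.sum_le_sum (fun q _ => Mtw_fac hT1 w U Y om e (Ek (a q) (t q) q))).trans ?_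
  rw [← Finset.mul_sum]
  exact mul_le_mul_of_nonneg_left hall (by positivity)

end Pool.Agent.Lib.NMA
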