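import Pool.Agent.Lib.NLA.All
import Pool.Agent.Lib.SLN.AllI2
import Pool.Agent.Lib.NMA.Mid
import Pool.Agent.Lib.NMA.Mcv
import Pool.Agent.Lib.NMA.Mon
import Pool.Agent.Lib.NMA.Mtb
import Pool.Agent.Lib.NMA.Mcg
import Pool.Agent.Lib.NMA.Mqs
import Pool.Agent.Lib.NMA.Mtw
import Pool.Agent.Lib.NMA.Mfi

/-! MP_00e23e_nt, directory Lib/NMA (project NLM: no lock, arbitrary part m ≤ x^μ, μ < 1/5): chapter A' without hypotheses, from
the bilinear theorem NLA.BlN to the theorem SLA.CoreStmt for the von Mangoldt function, ν up to 1/5. -/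

namespace Pool.Agent.Lib.NMA

/-- the sums with two smooth variables -/
theorem tMtwAll : MtwStmt := tMtw MI.tAcl (MK.tAtr MK.tAnm) (tMcg (tMtb SLN.aI2k)) tMqs

/-- Chapter A'. -/
theorem tMfiAll : MfiStmt :=
  tMfi tMid (tMcv NLA.tAcv) (NLA.tAon (MI.tAty MI.tAct) NLA.tAcv) (tMon (MI.tAty MI.tAct))
    (NLA.tAbi MI.tAcl (MK.tAtr MK.tAnm) NLA.tAcb) tMtwAll

end Pool.Agent.Lib.NMA
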